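import Pool.Agent.Lib_MP_55d5ef_a2.Lnk
import Pool.Agent.Lib_MP_55d5ef_f.Stab
import Pool.Agent.Lib_MP_55d5ef_geo.GFin

/-!
# The group `Gam` acts freely on the hyperboloid
-/

open Matrix

namespace H4A2

open Lib_MP_55d5ef_geo MP55F

/-- **The group acts freely.** -/
theorem Gam_free : ∀ g ∈ Lib_MP_55d5ef.Gam, ∀ x ∈ HL, act g x = x → g = 1 := by
  intro g hg x hx hgx
  obtain ⟨g', hg', rfl⟩ := MP55F.Gam_le hg
  have hfix : actΩ g' ω0 = ω0 := hg'
  have hfin := prop_disc (isCompact_singleton (x := x)) (Set.singleton_subset_iff.2 hx)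
  have hx' : ∀ n : ℕ, act ((g' : GL (Fin 5) ℤ) ^ n) x = x := by
    intro n
    induction n with
    | zero => rw [pow_zero, act_one]
    | succ n ih =>
      have hgx' : act (g' : GL (Fin 5) ℤ) x = x := hgx
      rw [pow_succ, act_mul, hgx', ih]
  have hfo : IsOfFinOrder (g' : GL (Fin 5) ℤ) := by
    by_contra hcon
    have hinj := injective_pow_iff_not_isOfFinOrder.2 hcon
    refine (Set.infinite_range_of_injective hinj) (hfin.subset (Set.range_subset_iff.2 ?_))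
    intro n
    refine ⟨?_, x, Set.mem_singleton x, by rw [hx' n]; exact Set.mem_singleton x⟩
    have : ((g' : GL (Fin 5) ℤ) ^ n) = ((g' ^ n : Gp) : GL (Fin 5) ℤ) := by
      simp
    show ∀ v w : Fin 5 → ℤ, bf (((g' : GL (Fin 5) ℤ) ^ n).1 *ᵥ v)
      (((g' : GL (Fin 5) ℤ) ^ n).1 *ᵥ w) = bf v w
    rw [this]
    exact (g' ^ n).2.1
  obtain ⟨n, hn, h1⟩ := isOfFinOrder_iff_pow_eq_one.1 hfo
  have h2 : g' ^ n = 1 := by
    apply Subtype.ext
    rw [Subgroup.coe_pow, h1]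
    rfl
  have h3 := tf g' ω0 hfix n hn h2
  rw [h3]
  rfl

end H4A2
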