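import Pool.Agent.Lib_MP_55d5ef_a2.Cov

/-!
# The bounds for the nearest cusps

`x = (α; κ; β)` is a time-like vector, `v = (a; k; b)` an isotropic vector of height `b > 0`, and
`e = (1; 0; 0)` and `v` are both nearest to `x` among `e`, `v` and the cusps
`w_c = (q(c) / 2; c; 1)`. Then `b ≤ 4`, and for two such `v` of the same height
`q(k₁ - k₂) ≤ 8 b - 2 b²`.
-/

namespace H4A2

/-- The bilinear form of `K`. -/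
def bK (x y z u v w : ℤ) : ℤ := 2 * x * u + 2 * y * v + 4 * z * w - (x * v + y * u) -
  (x * w + z * u)

/-- Half of the quadratic form of `K`. -/
def hK (x y z : ℤ) : ℤ := x * x + y * y + 2 * z * z - x * y - x * z

theorem qK_eq (x y z : ℤ) : qK x y z = 2 * hK x y z := by
  unfold qK hK
  ring

theorem qK_nonneg (x y z : ℤ) : 0 ≤ qK x y z := by
  have h : qK x y z = (x - y) ^ 2 + y ^ 2 + 3 * z ^ 2 + (z - x) ^ 2 := by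
    unfold qK
    ring
  rw [h]
  positivity

/-- The distance formula. -/
theorem dist_formula (α κ₁ κ₂ κ₃ β a k₁ k₂ k₃ b : ℤ) (hv : qK k₁ k₂ k₃ = 2 * a * b) :
    qK (β * k₁ - b * κ₁) (β * k₂ - b * κ₂) (β * k₃ - b * κ₃) +
      (2 * α * β - qK κ₁ κ₂ κ₃) * b ^ 2 =
    2 * β * b * (a * β + α * b - bK k₁ k₂ k₃ κ₁ κ₂ κ₃) := by
  have h1 : qK (β * k₁ - b * κ₁) (β * k₂ - b * κ₂) (β * k₃ - b * κ₃) =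
      β ^ 2 * qK k₁ k₂ k₃ + b ^ 2 * qK κ₁ κ₂ κ₃ - 2 * β * b * bK k₁ k₂ k₃ κ₁ κ₂ κ₃ := by
    unfold qK bK
    ring
  rw [h1, hv]
  ring

theorem D_ge (α κ₁ κ₂ κ₃ β : ℤ) (hβ : 0 < β)
    (hmin : ∀ c₁ c₂ c₃ : ℤ, β ≤ hK c₁ c₂ c₃ * β + α - bK c₁ c₂ c₃ κ₁ κ₂ κ₃) :
    β ^ 2 ≤ 2 * (2 * α * β - qK κ₁ κ₂ κ₃) := by
  obtain ⟨u, v, w, h⟩ := covK β hβ κ₁ κ₂ κ₃
  have h1 := dist_formula α κ₁ κ₂ κ₃ β (hK u v w) u v w 1 (by rw [qK_eq]; ring)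
  simp only [one_mul, one_pow, mul_one] at h1
  have h2 := hmin u v w
  have h3 : 2 * β * β ≤ 2 * β * (hK u v w * β + α - bK u v w κ₁ κ₂ κ₃) :=
    mul_le_mul_of_nonneg_left h2 (by omega)
  nlinarith

theorem height_le (α κ₁ κ₂ κ₃ β a k₁ k₂ k₃ b : ℤ) (hβ : 0 < β) (hb : 0 < b)
    (hv : qK k₁ k₂ k₃ = 2 * a * b)
    (hx : a * β + α * b - bK k₁ k₂ k₃ κ₁ κ₂ κ₃ = β)
    (hmin : ∀ c₁ c₂ c₃ : ℤ, β ≤ hK c₁ c₂ c₃ * β + α - bK c₁ c₂ c₃ κ₁ κ₂ κ₃) : b ≤ 4 := by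
  have h1 := dist_formula α κ₁ κ₂ κ₃ β a k₁ k₂ k₃ b hv
  rw [hx] at h1
  have h2 := D_ge α κ₁ κ₂ κ₃ β hβ hmin
  have h3 := qK_nonneg (β * k₁ - b * κ₁) (β * k₂ - b * κ₂) (β * k₃ - b * κ₃)
  set D := 2 * α * β - qK κ₁ κ₂ κ₃ with hD
  have h4 : D * b ^ 2 ≤ 2 * β * b * β := by linarith
  have h5 : β ^ 2 * b ^ 2 ≤ 2 * D * b ^ 2 := mul_le_mul_of_nonneg_right h2 (by positivity)
  have h6 : (β ^ 2 * b) * b ≤ (β ^ 2 * b) * 4 := by nlinarith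
  exact le_of_mul_le_mul_left h6 (by positivity)

theorem dist_le (α κ₁ κ₂ κ₃ β a k₁ k₂ k₃ a' l₁ l₂ l₃ b : ℤ) (hβ : 0 < β)
    (hv : qK k₁ k₂ k₃ = 2 * a * b) (hv' : qK l₁ l₂ l₃ = 2 * a' * b)
    (hx : a * β + α * b - bK k₁ k₂ k₃ κ₁ κ₂ κ₃ = β)
    (hx' : a' * β + α * b - bK l₁ l₂ l₃ κ₁ κ₂ κ₃ = β)
    (hmin : ∀ c₁ c₂ c₃ : ℤ, β ≤ hK c₁ c₂ c₃ * β + α - bK c₁ c₂ c₃ κ₁ κ₂ κ₃) :
    qK (k₁ - l₁) (k₂ - l₂) (k₃ - l₃) ≤ 8 * b - 2 * b ^ 2 := by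
  have h1 := dist_formula α κ₁ κ₂ κ₃ β a k₁ k₂ k₃ b hv
  rw [hx] at h1
  have h1' := dist_formula α κ₁ κ₂ κ₃ β a' l₁ l₂ l₃ b hv'
  rw [hx'] at h1'
  have h2 := D_ge α κ₁ κ₂ κ₃ β hβ hmin
  set D := 2 * α * β - qK κ₁ κ₂ κ₃ with hD
  have h5 : β ^ 2 * b ^ 2 ≤ 2 * D * b ^ 2 := mul_le_mul_of_nonneg_right h2 (by positivity)
  have h7 : β ^ 2 * qK (k₁ - l₁) (k₂ - l₂) (k₃ - l₃) +
      qK (β * k₁ - b * κ₁ + (β * l₁ - b * κ₁)) (β * k₂ - b * κ₂ + (β * l₂ - b * κ₂))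
        (β * k₃ - b * κ₃ + (β * l₃ - b * κ₃)) =
      2 * qK (β * k₁ - b * κ₁) (β * k₂ - b * κ₂) (β * k₃ - b * κ₃) +
      2 * qK (β * l₁ - b * κ₁) (β * l₂ - b * κ₂) (β * l₃ - b * κ₃) := by
    unfold qK
    ring
  have h8 := qK_nonneg (β * k₁ - b * κ₁ + (β * l₁ - b * κ₁)) (β * k₂ - b * κ₂ + (β * l₂ - b * κ₂))
        (β * k₃ - b * κ₃ + (β * l₃ - b * κ₃))
  have h9 : β ^ 2 * qK (k₁ - l₁) (k₂ - l₂) (k₃ - l₃) ≤ β ^ 2 * (8 * b - 2 * b ^ 2) := by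
    nlinarith
  exact le_of_mul_le_mul_left h9 (by positivity)

end H4A2
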