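import Mathlib

/-!
# The covering radius of the lattice K

`qK x y z = 2 x² + 2 y² + 4 z² - 2 x y - 2 x z`. In the coordinates
`t = (x - y, y, -z, z - x)` (sum zero) it is `t₁² + t₂² + 3 t₃² + t₄²`. The squared covering
radius is `3 / 2`.
-/

namespace H4A2

/-- The quadratic form of the lattice `K`. -/
def qK (x y z : ℤ) : ℤ := 2 * x * x + 2 * y * y + 4 * z * z - 2 * x * y - 2 * x * z

private theorem round_one (b F₁ F₂ F₃ : ℤ) (hb : 0 < b) (h₁ : 0 ≤ F₁) (h₂ : 0 ≤ F₂) (h₃ : 0 ≤ F₃)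
    (hs : F₁ + F₂ + F₃ = 3 * b) (h12 : F₂ ≤ F₁) (h13 : F₃ ≤ F₁) :
    (3 * b - F₁) ^ 2 + F₂ ^ 2 + F₃ ^ 2 ≤ 6 * b ^ 2 := by
  have hF1 : b ≤ F₁ := by omega
  have e1 : F₂ ^ 2 ≤ F₁ * F₂ := by nlinarith
  have e2 : F₃ ^ 2 ≤ F₁ * F₃ := by nlinarith
  have e3 : F₁ * F₂ + F₁ * F₃ = F₁ * (3 * b - F₁) := by
    have : F₂ + F₃ = 3 * b - F₁ := by omega
    rw [← mul_add, this]
  have e4 : (3 * b - F₁) * (3 * b) ≤ 2 * b * (3 * b) := by
    apply mul_le_mul_of_nonneg_right <;> omega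
  nlinarith

private theorem round_A2 (b F₁ F₂ F₃ s : ℤ) (hb : 0 < b) (h₁ : 0 ≤ F₁) (h₂ : 0 ≤ F₂) (h₃ : 0 ≤ F₃)
    (h₁' : F₁ < 3 * b) (h₂' : F₂ < 3 * b) (h₃' : F₃ < 3 * b)
    (hs : F₁ + F₂ + F₃ = 3 * b * s) :
    ∃ ε₁ ε₂ ε₃ : ℤ, ε₁ + ε₂ + ε₃ = s ∧
      (3 * b * ε₁ - F₁) ^ 2 + (3 * b * ε₂ - F₂) ^ 2 + (3 * b * ε₃ - F₃) ^ 2 ≤ 6 * b ^ 2 := by
  have hs0 : 0 ≤ s := by
    by_contra h
    have : s ≤ -1 := by omega
    nlinarith
  have hs3 : s < 3 := by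
    by_contra h
    have : 3 ≤ s := by omega
    nlinarith
  have h012 : s = 0 ∨ s = 1 ∨ s = 2 := by omega
  rcases h012 with rfl | rfl | rfl
  · have e1 : F₁ = 0 := by omega
    have e2 : F₂ = 0 := by omega
    have e3 : F₃ = 0 := by omega
    refine ⟨0, 0, 0, rfl, ?_⟩
    rw [e1, e2, e3]
    nlinarith
  · rw [mul_one] at hs
    rcases le_total F₂ F₁ with h | h
    · rcases le_total F₃ F₁ with h' | h'
      · exact ⟨1, 0, 0, by norm_num, by
          have := round_one b F₁ F₂ F₃ hb h₁ h₂ h₃ hs h h'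
          nlinarith⟩
      · exact ⟨0, 0, 1, by norm_num, by
          have := round_one b F₃ F₁ F₂ hb h₃ h₁ h₂ (by omega) h' (by omega)
          nlinarith⟩
    · rcases le_total F₃ F₂ with h' | h'
      · exact ⟨0, 1, 0, by norm_num, by
          have := round_one b F₂ F₁ F₃ hb h₂ h₁ h₃ (by omega) h h'
          nlinarith⟩
      · exact ⟨0, 0, 1, by norm_num, by
          have := round_one b F₃ F₁ F₂ hb h₃ h₁ h₂ (by omega) (by omega) h'
          nlinarith⟩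
  · rcases le_total F₁ F₂ with h | h
    · rcases le_total F₁ F₃ with h' | h'
      · exact ⟨0, 1, 1, by norm_num, by
          have := round_one b (3 * b - F₁) (3 * b - F₂) (3 * b - F₃) hb (by omega) (by omega)
            (by omega) (by omega) (by omega) (by omega)
          nlinarith⟩
      · exact ⟨1, 1, 0, by norm_num, by
          have := round_one b (3 * b - F₃) (3 * b - F₁) (3 * b - F₂) hb (by omega) (by omega)
            (by omega) (by omega) (by omega) (by omega)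
          nlinarith⟩
    · rcases le_total F₂ F₃ with h' | h'
      · exact ⟨1, 0, 1, by norm_num, by
          have := round_one b (3 * b - F₂) (3 * b - F₁) (3 * b - F₃) hb (by omega) (by omega)
            (by omega) (by omega) (by omega) (by omega)
          nlinarith⟩
      · exact ⟨1, 1, 0, by norm_num, by
          have := round_one b (3 * b - F₃) (3 * b - F₁) (3 * b - F₂) hb (by omega) (by omega)
            (by omega) (by omega) (by omega) (by omega)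
          nlinarith⟩

/-- The squared covering radius of `K` is (at most) `3 / 2`. -/
theorem covK (b : ℤ) (hb : 0 < b) (x y z : ℤ) :
    ∃ u v w : ℤ, 2 * qK (b * u - x) (b * v - y) (b * w - z) ≤ 3 * b ^ 2 := by
  -- the third coordinate
  obtain ⟨w, d, hd, hd1, hd2⟩ : ∃ w d : ℤ, b * w - z = d ∧ 2 * d ≤ b ∧ -b ≤ 2 * d := by
    refine ⟨(2 * z + b) / (2 * b), _, rfl, ?_, ?_⟩
    · have h1 := Int.emod_nonneg (2 * z + b) (show 2 * b ≠ 0 by omega)
      have h2 := Int.mul_ediv_add_emod (2 * z + b) (2 * b)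
      nlinarith
    · have h1 := Int.emod_lt_of_pos (2 * z + b) (show 0 < 2 * b by omega)
      have h2 := Int.mul_ediv_add_emod (2 * z + b) (2 * b)
      nlinarith
  have h3b : (0 : ℤ) < 3 * b := by omega
  set C₁ : ℤ := 3 * (x - y) + d with hC₁
  set C₂ : ℤ := 3 * y + d with hC₂
  set C₃ : ℤ := 3 * (z - x) + d with hC₃
  have hC : C₁ + C₂ + C₃ = 3 * b * w := by rw [hC₁, hC₂, hC₃, ← hd]; ring
  have m1 := Int.mul_ediv_add_emod C₁ (3 * b)
  have m2 := Int.mul_ediv_add_emod C₂ (3 * b)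
  have m3 := Int.mul_ediv_add_emod C₃ (3 * b)
  obtain ⟨ε₁, ε₂, ε₃, hε, hle⟩ := round_A2 b (C₁ % (3 * b)) (C₂ % (3 * b)) (C₃ % (3 * b))
    (w - C₁ / (3 * b) - C₂ / (3 * b) - C₃ / (3 * b)) hb (Int.emod_nonneg _ h3b.ne')
    (Int.emod_nonneg _ h3b.ne') (Int.emod_nonneg _ h3b.ne') (Int.emod_lt_of_pos _ h3b)
    (Int.emod_lt_of_pos _ h3b) (Int.emod_lt_of_pos _ h3b) (by linear_combination m1 + m2 + m3 + hC)
  set q₁ := C₁ / (3 * b)
  set q₂ := C₂ / (3 * b)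
  set q₃ := C₃ / (3 * b)
  have k1 : 3 * b * ε₁ - C₁ % (3 * b) = 3 * b * (q₁ + ε₁) - C₁ := by linear_combination -m1
  have k2 : 3 * b * ε₂ - C₂ % (3 * b) = 3 * b * (q₂ + ε₂) - C₂ := by linear_combination -m2
  have k3 : 3 * b * ε₃ - C₃ % (3 * b) = 3 * b * (q₃ + ε₃) - C₃ := by linear_combination -m3
  rw [k1, k2, k3] at hle
  refine ⟨(q₁ + ε₁) + (q₂ + ε₂), q₂ + ε₂, w, ?_⟩
  set τ₁ := q₁ + ε₁ with hτ₁
  set τ₂ := q₂ + ε₂ with hτ₂
  have hτ₃ : q₃ + ε₃ = w - τ₁ - τ₂ := by rw [hτ₁, hτ₂]; linear_combination hε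
  rw [hτ₃] at hle
  have hd4 : 4 * d ^ 2 ≤ b ^ 2 := by nlinarith
  have key : 9 * qK (b * (τ₁ + τ₂) - x) (b * τ₂ - y) (b * w - z) =
      (3 * b * τ₁ - C₁) ^ 2 + (3 * b * τ₂ - C₂) ^ 2 + (3 * b * (w - τ₁ - τ₂) - C₃) ^ 2 +
        30 * d ^ 2 := by
    rw [hC₁, hC₂, hC₃, ← hd]
    unfold qK
    ring
  nlinarith

end H4A2
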