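import Pool.Agent.Lib_MP_55d5ef_a2.Tup
import Pool.Agent.Lib_MP_55d5ef_f.Grp

/-!
# The words as elements of the group of the forward isometries
-/

open Matrix

namespace H4A2

open Lib_MP_55d5ef_geo MP55F

/-- The vector of a tuple. -/
def vec (v : V5) : Fin 5 → ℤ := ![v.1, v.2.1, v.2.2.1, v.2.2.2.1, v.2.2.2.2]

theorem vec_inj {v w : V5} (h : vec v = vec w) : v = w := by
  obtain ⟨a, x, y, z, b⟩ := v
  obtain ⟨a', x', y', z', b'⟩ := w
  have h0 := congrFun h 0
  have h1 := congrFun h 1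
  have h2 := congrFun h 2
  have h3 := congrFun h 3
  have h4 := congrFun h 4
  simp [vec] at h0 h1 h2 h3 h4
  subst h0 h1 h2 h3 h4
  rfl

theorem vec_of (u : Fin 5 → ℤ) : vec (u 0, u 1, u 2, u 3, u 4) = u := by
  ext i
  fin_cases i <;> rfl

/-- The matrices of the elements of `O(K)`. -/
def SMt (r : ℕ) : Matrix (Fin 5) (Fin 5) ℤ :=
  !![1, 0, 0, 0, 0;
     0, (okA r 1 0 0).1, (okA r 0 1 0).1, (okA r 0 0 1).1, 0;
     0, (okA r 1 0 0).2.1, (okA r 0 1 0).2.1, (okA r 0 0 1).2.1, 0;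
     0, (okA r 1 0 0).2.2, (okA r 0 1 0).2.2, (okA r 0 0 1).2.2, 0;
     0, 0, 0, 0, 1]

theorem SMt_inv : ∀ r < 12, SMt r * SMt (oinv r) = 1 ∧ SMt (oinv r) * SMt r = 1 := by
  decide +kernel

theorem okA_lin (r : ℕ) (x y z : ℤ) : okA r x y z =
    (x * (okA r 1 0 0).1 + y * (okA r 0 1 0).1 + z * (okA r 0 0 1).1,
     x * (okA r 1 0 0).2.1 + y * (okA r 0 1 0).2.1 + z * (okA r 0 0 1).2.1,
     x * (okA r 1 0 0).2.2 + y * (okA r 0 1 0).2.2 + z * (okA r 0 0 1).2.2) := by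
  unfold okA
  split <;> (simp <;> try ring_nf <;> simp)

theorem okA_bK (r : ℕ) (x y z u v w : ℤ) :
    bK (okA r x y z).1 (okA r x y z).2.1 (okA r x y z).2.2
      (okA r u v w).1 (okA r u v w).2.1 (okA r u v w).2.2 = bK x y z u v w := by
  unfold okA
  split <;> (unfold bK; ring)

theorem SMt_mulVec (r : ℕ) (u : Fin 5 → ℤ) : SMt r *ᵥ u =
    ![u 0, (okA r (u 1) (u 2) (u 3)).1, (okA r (u 1) (u 2) (u 3)).2.1,
      (okA r (u 1) (u 2) (u 3)).2.2, u 4] := by
  rw [okA_lin r (u 1) (u 2) (u 3)]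
  ext i
  fin_cases i <;> simp [SMt, Matrix.mulVec, dotProduct, Fin.sum_univ_five] <;> ring

/-- The elements of `O(K)` as units (`r < 12`). -/
def SU (r : ℕ) : GL (Fin 5) ℤ :=
  if h : r < 12 then ⟨SMt r, SMt (oinv r), (SMt_inv r h).1, (SMt_inv r h).2⟩ else 1

theorem SU_val {r : ℕ} (h : r < 12) : (SU r).1 = SMt r := by
  unfold SU
  rw [dif_pos h]

theorem bf_bK (v w : Fin 5 → ℤ) :
    bf v w = bK (v 1) (v 2) (v 3) (w 1) (w 2) (w 3) - (v 0 * w 4 + v 4 * w 0) := by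
  unfold bf bK
  ring

theorem SU_mem (r : ℕ) : SU r ∈ Gp := by
  by_cases h : r < 12
  · refine ⟨fun v w => ?_, ?_⟩
    · rw [SU_val h, SMt_mulVec, SMt_mulVec, bf_bK, bf_bK]
      simp only [Matrix.cons_val]
      rw [okA_bK]
    · unfold fwdG
      rw [SU_val h, SMt_mulVec]
      simp [p5]
  · unfold SU
    rw [dif_neg h]
    exact Gp.one_mem

/-- The letters as elements of the group. -/
def lt : Lt → Gp
  | Lt.J => MP55F.JG
  | Lt.T x y z => ⟨TU (x, y, z), TU_mem _⟩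
  | Lt.S r => ⟨SU r, SU_mem r⟩

/-- Valid letters. -/
def okL : Lt → Prop
  | Lt.J => True
  | Lt.T _ _ _ => True
  | Lt.S r => r < 12

theorem lt_mulVec (l : Lt) (hl : okL l) (v : V5) : (lt l).1.1 *ᵥ vec v = vec (actV l v) := by
  obtain ⟨a, x, y, z, b⟩ := v
  cases l with
  | J =>
    change MP55F.JM *ᵥ _ = _
    rw [MP55F.JM_mulVec]
    rfl
  | T u v w =>
    change (TM u v w) *ᵥ _ = _
    rw [MP55F.TM_mulVec]
    simp only [actV, frz_eq]
    ext i
    fin_cases i <;> simp [vec, Lib_MP_55d5ef_geo.qK, bK, hK] <;> ring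
  | S r =>
    change (SU r).1 *ᵥ _ = _
    rw [SU_val hl, SMt_mulVec]
    simp only [actV, frz_eq]
    rfl

/-- The words as elements of the group. -/
def wd (l : List Lt) : Gp := (l.map lt).prod

theorem wd_nil : wd [] = 1 := rfl

theorem wd_cons (a : Lt) (l : List Lt) : wd (a :: l) = lt a * wd l := by
  simp [wd]

theorem wd_append (l l' : List Lt) : wd (l ++ l') = wd l * wd l' := by
  simp [wd]

theorem wd_mulVec (l : List Lt) (hl : ∀ a ∈ l, okL a) (v : V5) :
    (wd l).1.1 *ᵥ vec v = vec (wV l v) := by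
  induction l with
  | nil => simp [wd_nil, wV]
  | cons a l ih =>
    have h1 := ih fun b hb => hl b (List.mem_cons_of_mem _ hb)
    rw [wd_cons]
    change ((lt a).1.1 * (wd l).1.1) *ᵥ _ = _
    rw [← Matrix.mulVec_mulVec, h1, lt_mulVec a (hl a List.mem_cons_self)]
    rfl

theorem pow_mulVec (l : List Lt) (hl : ∀ a ∈ l, okL a) (p : ℕ) (v : V5) :
    ((wd l) ^ p).1.1 *ᵥ vec v = vec ((wV l)^[p] v) := by
  induction p generalizing v with
  | zero => simp
  | succ p ih =>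
    rw [pow_succ]
    change (((wd l) ^ p).1.1 * (wd l).1.1) *ᵥ _ = _
    rw [← Matrix.mulVec_mulVec, wd_mulVec l hl, ih, Function.iterate_succ_apply]

theorem isId_of_pow (l : List Lt) (hl : ∀ a ∈ l, okL a) (p : ℕ) (h : (wd l) ^ p = 1) :
    isId l p = true := by
  have key : ∀ v : V5, fixV l p v = true := by
    intro v
    have h1 := pow_mulVec l hl p v
    rw [h] at h1
    have h2 : vec v = vec ((wV l)^[p] v) := by
      rw [← h1]
      simp
    unfold fixV
    rw [decide_eq_true_iff]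
    exact (vec_inj h2).symm
  unfold isId
  rw [key, key, key, key, key]
  rfl

end H4A2
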