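import Pool.Agent.Lib_MP_55d5ef_a2.Nea

/-!
# The group is torsion-free: the finite list
-/

open Matrix

namespace H4A2

open Lib_MP_55d5ef_geo MP55F

/-- The residues modulo 2. -/
theorem res2 : ∀ x ∈ Finset.Ico (0 : ℤ) 2, ∀ y ∈ Finset.Ico (0 : ℤ) 2, ∀ z ∈ Finset.Ico (0 : ℤ) 2,
    hK x y z % 2 = 0 → (x = 0 ∧ y = 0 ∧ z = 0) ∨
      (x, y, z) ∈ ([(0, 0, 1), (1, 0, 1), (1, 1, 1)] : List (ℤ × ℤ × ℤ)) := by
  decide +kernel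

/-- The residues modulo 3. -/
theorem res3 : (([0, 1, 2] : List ℤ).all fun x => ([0, 1, 2] : List ℤ).all fun y =>
    ([0, 1, 2] : List ℤ).all fun z => !(decide (hK x y z % 3 = 0)) ||
      (decide (x = 0 ∧ y = 0 ∧ z = 0) || reps3.any fun n =>
        decide ((x - n.1) % 3 = 0 ∧ (y - n.2.1) % 3 = 0 ∧ (z - n.2.2) % 3 = 0))) = true := by
  decide +kernel

/-- The residues modulo 4. -/
theorem res4 : (([0, 1, 2, 3] : List ℤ).all fun x => ([0, 1, 2, 3] : List ℤ).all fun y =>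
    ([0, 1, 2, 3] : List ℤ).all fun z => decide (x = 0 ∧ y = 2 ∧ z = 2) ||
      (([0, 1] : List ℤ).any fun u => ([-1, 0, 1] : List ℤ).any fun v =>
        ([0, 1] : List ℤ).any fun w =>
        decide (hK (4 * u - x) (4 * v - y) (4 * w - z) < 12))) = true := by
  decide +kernel

theorem reps3_norm : ∀ n ∈ reps3, hK n.1 n.2.1 n.2.2 = 3 := by
  decide +kernel

theorem reps2_norm : ∀ n ∈ ([(0, 0, 1), (1, 0, 1), (1, 1, 1)] : List (ℤ × ℤ × ℤ)),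
    hK n.1 n.2.1 n.2.2 = 2 := by
  decide +kernel

theorem mem3 {r : ℤ} (h0 : 0 ≤ r) (h1 : r < 3) : r ∈ ([0, 1, 2] : List ℤ) := by
  have : r = 0 ∨ r = 1 ∨ r = 2 := by omega
  rcases this with rfl | rfl | rfl <;> simp

theorem mem4 {r : ℤ} (h0 : 0 ≤ r) (h1 : r < 4) : r ∈ ([0, 1, 2, 3] : List ℤ) := by
  have : r = 0 ∨ r = 1 ∨ r = 2 ∨ r = 3 := by omega
  rcases this with rfl | rfl | rfl | rfl <;> simp

/-- The class of the `K`-part of a primitive isotropic vector of height 3. -/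
theorem class3 (k₁ k₂ k₃ a : ℤ) (h : hK k₁ k₂ k₃ = a * 3) :
    (∃ m₁ m₂ m₃ m : ℤ, k₁ = 3 * m₁ ∧ k₂ = 3 * m₂ ∧ k₃ = 3 * m₃ ∧ a = 3 * m) ∨
    ∃ n ∈ reps3, ∃ c₁ c₂ c₃ : ℤ, k₁ - 3 * c₁ = n.1 ∧ k₂ - 3 * c₂ = n.2.1 ∧ k₃ - 3 * c₃ = n.2.2 := by
  have m1 := Int.mul_ediv_add_emod k₁ 3
  have m2 := Int.mul_ediv_add_emod k₂ 3
  have m3 := Int.mul_ediv_add_emod k₃ 3
  set q₁ := k₁ / 3
  set q₂ := k₂ / 3
  set q₃ := k₃ / 3
  have r1 : 0 ≤ k₁ % 3 ∧ k₁ % 3 < 3 := by omega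
  have r2 : 0 ≤ k₂ % 3 ∧ k₂ % 3 < 3 := by omega
  have r3 : 0 ≤ k₃ % 3 ∧ k₃ % 3 < 3 := by omega
  set x := k₁ % 3
  set y := k₂ % 3
  set z := k₃ % 3
  have hm : hK x y z % 3 = 0 := by
    have h1 : hK k₁ k₂ k₃ = hK x y z + 3 * (bK x y z q₁ q₂ q₃ + 3 * hK q₁ q₂ q₃) := by
      rw [← m1, ← m2, ← m3]
      unfold hK bK
      ring
    omega
  have h2 := List.all_eq_true.1 (List.all_eq_true.1 (List.all_eq_true.1 res3 x (mem3 r1.1 r1.2)) y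
    (mem3 r2.1 r2.2)) z (mem3 r3.1 r3.2)
  rw [Bool.or_eq_true, Bool.or_eq_true, Bool.not_eq_true', decide_eq_false_iff_not,
    decide_eq_true_iff] at h2
  rcases h2 with h2 | h2 | h2
  · exact absurd hm h2
  · left
    obtain ⟨hx, hy, hz⟩ := h2
    rw [hx, add_zero] at m1
    rw [hy, add_zero] at m2
    rw [hz, add_zero] at m3
    refine ⟨q₁, q₂, q₃, hK q₁ q₂ q₃, m1.symm, m2.symm, m3.symm, ?_⟩
    have h3 : hK k₁ k₂ k₃ = 9 * hK q₁ q₂ q₃ := by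
      rw [← m1, ← m2, ← m3]
      unfold hK
      ring
    omega
  · right
    obtain ⟨n, hn, h3⟩ := List.any_eq_true.1 h2
    rw [decide_eq_true_iff] at h3
    obtain ⟨h4, h5, h6⟩ := h3
    refine ⟨n, hn, q₁ + (x - n.1) / 3, q₂ + (y - n.2.1) / 3, q₃ + (z - n.2.2) / 3, ?_, ?_, ?_⟩ <;>
      omega

/-- The class of the `K`-part of a primitive isotropic vector of height 2. -/
theorem class2 (k₁ k₂ k₃ a : ℤ) (h : hK k₁ k₂ k₃ = a * 2) :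
    (∃ m₁ m₂ m₃ m : ℤ, k₁ = 2 * m₁ ∧ k₂ = 2 * m₂ ∧ k₃ = 2 * m₃ ∧ a = 2 * m) ∨
    ∃ n ∈ ([(0, 0, 1), (1, 0, 1), (1, 1, 1)] : List (ℤ × ℤ × ℤ)), ∃ c₁ c₂ c₃ : ℤ,
      k₁ - 2 * c₁ = n.1 ∧ k₂ - 2 * c₂ = n.2.1 ∧ k₃ - 2 * c₃ = n.2.2 := by
  have m1 := Int.mul_ediv_add_emod k₁ 2
  have m2 := Int.mul_ediv_add_emod k₂ 2
  have m3 := Int.mul_ediv_add_emod k₃ 2
  set q₁ := k₁ / 2
  set q₂ := k₂ / 2
  set q₃ := k₃ / 2
  have r1 : 0 ≤ k₁ % 2 ∧ k₁ % 2 < 2 := by omega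
  have r2 : 0 ≤ k₂ % 2 ∧ k₂ % 2 < 2 := by omega
  have r3 : 0 ≤ k₃ % 2 ∧ k₃ % 2 < 2 := by omega
  set x := k₁ % 2
  set y := k₂ % 2
  set z := k₃ % 2
  have hm : hK x y z % 2 = 0 := by
    have h1 : hK k₁ k₂ k₃ = hK x y z + 2 * (bK x y z q₁ q₂ q₃ + 2 * hK q₁ q₂ q₃) := by
      rw [← m1, ← m2, ← m3]
      unfold hK bK
      ring
    omega
  rcases res2 x (Finset.mem_Ico.2 r1) y (Finset.mem_Ico.2 r2) z (Finset.mem_Ico.2 r3) hm with h2 | h2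
  · left
    obtain ⟨hx, hy, hz⟩ := h2
    rw [hx, add_zero] at m1
    rw [hy, add_zero] at m2
    rw [hz, add_zero] at m3
    refine ⟨q₁, q₂, q₃, hK q₁ q₂ q₃, m1.symm, m2.symm, m3.symm, ?_⟩
    have h3 : hK k₁ k₂ k₃ = 4 * hK q₁ q₂ q₃ := by
      rw [← m1, ← m2, ← m3]
      unfold hK
      ring
    omega
  · right
    refine ⟨_, h2, q₁, q₂, q₃, ?_, ?_, ?_⟩
    · show k₁ - 2 * q₁ = x
      omega
    · show k₂ - 2 * q₂ = y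
      omega
    · show k₃ - 2 * q₃ = z
      omega

/-- The class of the `K`-part for the height 4. -/
theorem class4 (k₁ k₂ k₃ : ℤ)
    (h : ∀ c₁ c₂ c₃ : ℤ, 12 ≤ hK (4 * c₁ - k₁) (4 * c₂ - k₂) (4 * c₃ - k₃)) :
    ∃ c₁ c₂ c₃ : ℤ, k₁ - 4 * c₁ = 0 ∧ k₂ - 4 * c₂ = 2 ∧ k₃ - 4 * c₃ = 2 := by
  have m1 := Int.mul_ediv_add_emod k₁ 4
  have m2 := Int.mul_ediv_add_emod k₂ 4
  have m3 := Int.mul_ediv_add_emod k₃ 4
  set q₁ := k₁ / 4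
  set q₂ := k₂ / 4
  set q₃ := k₃ / 4
  have r1 : 0 ≤ k₁ % 4 ∧ k₁ % 4 < 4 := by omega
  have r2 : 0 ≤ k₂ % 4 ∧ k₂ % 4 < 4 := by omega
  have r3 : 0 ≤ k₃ % 4 ∧ k₃ % 4 < 4 := by omega
  set x := k₁ % 4
  set y := k₂ % 4
  set z := k₃ % 4
  have h2 := List.all_eq_true.1 (List.all_eq_true.1 (List.all_eq_true.1 res4 x (mem4 r1.1 r1.2)) y
    (mem4 r2.1 r2.2)) z (mem4 r3.1 r3.2)
  rw [Bool.or_eq_true, decide_eq_true_iff] at h2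
  rcases h2 with h2 | h2
  · exact ⟨q₁, q₂, q₃, by omega, by omega, by omega⟩
  · exfalso
    obtain ⟨u, -, h3⟩ := List.any_eq_true.1 h2
    obtain ⟨v, -, h4⟩ := List.any_eq_true.1 h3
    obtain ⟨w, -, h5⟩ := List.any_eq_true.1 h4
    rw [decide_eq_true_iff] at h5
    have h6 := h (u + q₁) (v + q₂) (w + q₃)
    have e1 : 4 * (u + q₁) - k₁ = 4 * u - x := by omega
    have e2 : 4 * (v + q₂) - k₂ = 4 * v - y := by omega
    have e3 : 4 * (w + q₃) - k₃ = 4 * w - z := by omega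
    rw [e1, e2, e3] at h6
    omega

/-- The finite check, for one representative. -/
theorem final {Ω : Type} (D : OData Ω) (g : Gp) (p : ℕ) (hp : p = 2 ∨ p = 3 ∨ p = 5)
    (hg : g ^ p = 1) (ω : Ω) (hω : D.ρ g ω = ω)
    (A : List Lt) (hA : ∀ l ∈ A, okL l) (n₁ n₂ n₃ kh₁ kh₂ kh₃ a a' b l₀ l₁ l₂ l₃ : ℤ)
    (hb : 0 < b)
    (hv : cu g = vec (a, n₁, n₂, n₃, b)) (hv' : cu g⁻¹ = vec (l₀, l₁, l₂, l₃, b))
    (hAe : wV A (1, 0, 0, 0, 0) = (a, n₁, n₂, n₃, b))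
    (hAi : wV A (a', kh₁, kh₂, kh₃, b) = (1, 0, 0, 0, 0))
    (L : List (ℤ × ℤ × ℤ))
    (hL : ∀ x y z : ℤ, hK x y z = hK (n₁ - l₁) (n₂ - l₂) (n₃ - l₃) → (x, y, z) ∈ L)
    (hc : chkAll A b (n₁, n₂, n₃) (kh₁, kh₂, kh₃) L = true) : False := by
  -- the element of the stabilizer
  have hAe' : (wd A).1.1 *ᵥ (e5 : Fin 5 → ℤ) = cu g := by
    rw [← vec_e, wd_mulVec A hA, hAe, hv]
  have hAi' : (wd A)⁻¹.1.1 *ᵥ (e5 : Fin 5 → ℤ) = vec (a', kh₁, kh₂, kh₃, b) := by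
    apply inv_mulVec
    rw [wd_mulVec A hA, hAi, vec_e]
  obtain ⟨u, v, w, s, hs, hst⟩ := stab_form ((wd A)⁻¹ * g) (by
    change ((wd A)⁻¹.1.1 * g.1.1) *ᵥ _ = _
    rw [← Matrix.mulVec_mulVec]
    exact inv_mulVec _ _ _ hAe')
  have hgw : g = wd (A ++ [Lt.T u v w, Lt.S s]) := by
    have h1 : wd [Lt.T u v w, Lt.S s] = lt (Lt.T u v w) * lt (Lt.S s) := by simp [wd]
    rw [wd_append, h1, ← hst]
    group
  have hok : ∀ l ∈ A ++ [Lt.T u v w, Lt.S s], okL l := by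
    intro l hl
    rw [List.mem_append] at hl
    rcases hl with hl | hl
    · exact hA l hl
    · simp only [List.mem_cons, List.not_mem_nil, or_false] at hl
      rcases hl with rfl | rfl
      · trivial
      · exact hs
  -- the equation for `u`
  have h1 : (lt (Lt.T u v w) * lt (Lt.S s)).1.1 *ᵥ cu g⁻¹ = vec (a', kh₁, kh₂, kh₃, b) := by
    rw [← hst, ← cu_mul, ← hAi', mul_assoc, mul_inv_cancel, mul_one]
    rfl
  have h2 : (lt (Lt.T u v w) * lt (Lt.S s)).1.1 *ᵥ cu g⁻¹ =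
      vec (actV (Lt.T u v w) (actV (Lt.S s) (l₀, l₁, l₂, l₃, b))) := by
    change ((lt (Lt.T u v w)).1.1 * (lt (Lt.S s)).1.1) *ᵥ _ = _
    rw [← Matrix.mulVec_mulVec, hv', lt_mulVec (Lt.S s) hs, lt_mulVec (Lt.T u v w) trivial]
  rw [h2] at h1
  have h3 := vec_inj h1
  simp only [actV, frz_eq] at h3
  obtain ⟨h4, h5, h6, h7, h8⟩ : _ ∧ _ ∧ _ ∧ _ ∧ _ := by
    simpa only [Prod.mk.injEq] using h3
  -- the vector `w`
  set X := (okA s n₁ n₂ n₃).1 - (okA s l₁ l₂ l₃).1 with hX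
  set Y := (okA s n₁ n₂ n₃).2.1 - (okA s l₁ l₂ l₃).2.1 with hY
  set Z := (okA s n₁ n₂ n₃).2.2 - (okA s l₁ l₂ l₃).2.2 with hZ
  have h9 : hK X Y Z = hK (n₁ - l₁) (n₂ - l₂) (n₃ - l₃) := by
    have e1 := okA_bK s n₁ n₂ n₃ n₁ n₂ n₃
    have e2 := okA_bK s l₁ l₂ l₃ l₁ l₂ l₃
    have e3 := okA_bK s n₁ n₂ n₃ l₁ l₂ l₃
    have e4 : ∀ x y z x' y' z' : ℤ, 2 * hK (x - x') (y - y') (z - z') =
        bK x y z x y z + bK x' y' z' x' y' z' - 2 * bK x y z x' y' z' := by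
      intro x y z x' y' z'
      unfold hK bK
      ring
    have e5 := e4 (okA s n₁ n₂ n₃).1 (okA s n₁ n₂ n₃).2.1 (okA s n₁ n₂ n₃).2.2
      (okA s l₁ l₂ l₃).1 (okA s l₁ l₂ l₃).2.1 (okA s l₁ l₂ l₃).2.2
    have e6 := e4 n₁ n₂ n₃ l₁ l₂ l₃
    rw [e1, e2, e3, ← hX, ← hY, ← hZ, ← e6] at e5
    linarith
  have h10 := hL X Y Z h9
  unfold chkAll at hc
  have h11 := List.all_eq_true.1 (List.all_eq_true.1 hc s (List.mem_range.2 hs)) (X, Y, Z) h10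
  have x1 : X + kh₁ - (okA s n₁ n₂ n₃).1 = b * u := by rw [hX]; linear_combination -h5
  have x2 : Y + kh₂ - (okA s n₁ n₂ n₃).2.1 = b * v := by rw [hY]; linear_combination -h6
  have x3 : Z + kh₃ - (okA s n₁ n₂ n₃).2.2 = b * w := by rw [hZ]; linear_combination -h7
  simp only [x1, x2, x3, Int.mul_emod_right, Int.mul_ediv_cancel_left _ hb.ne', and_self,
    decide_true, Bool.not_true, Bool.false_or] at h11
  rw [hgw] at hg hω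
  exact no_fix D _ hok h11 p hp hg ω hω

end H4A2
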