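import Pool.Agent.Lib_MP_55d5ef_a2.Tor
import Pool.Agent.Lib_MP_55d5ef_f.Act

/-!
# The 480 points of the computation are the coset space `Om`
-/

open Matrix

namespace H4A2

open Lib_MP_55d5ef_geo MP55F

/-- The elements of `O(K)` as 3 by 3 matrices. -/
def OM (r : ℕ) : M3 :=
  !![(okA r 1 0 0).1, (okA r 0 1 0).1, (okA r 0 0 1).1;
     (okA r 1 0 0).2.1, (okA r 0 1 0).2.1, (okA r 0 0 1).2.1;
     (okA r 1 0 0).2.2, (okA r 0 1 0).2.2, (okA r 0 0 1).2.2]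

theorem OM_LO : ∀ r < 12, OM r ∈ LO := by decide +kernel

theorem LO_OM : ∀ R ∈ LO, ∃ r < 12, OM r = R := by decide +kernel

theorem OM_inj : ∀ r < 12, ∀ r' < 12, OM r = OM r' → r = r' := by decide +kernel

theorem OM_mul : ∀ r < 12, ∀ s < 12, OM r * OM s = OM (omul r s) := by decide +kernel

/-- The elements of `O(K)` in `OKm`. -/
def OK' (r : ℕ) : OKm := if h : r < 12 then ⟨OM r, LO_mem _ (OM_LO r h)⟩ else 1

theorem OK'_val {r : ℕ} (h : r < 12) : (OK' r).1 = OM r := by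
  unfold OK'
  rw [dif_pos h]

/-- The code of the 40 classes. -/
def cl (n : ℕ) : ZMod 2 × ZMod 20 := (((n / 20 : ℕ) : ZMod 2), ((n % 20 : ℕ) : ZMod 20))

theorem cl_surj : ∀ c, ∃ n < 40, cl n = c := by decide +kernel

theorem cl_inj : ∀ n < 40, ∀ n' < 40, cl n = cl n' → n = n' := by decide +kernel

theorem cl_jc : ∀ n < 40, jc (cl n) = cl (jT n) ∧ rc (cl n) = OM (rT n) := by decide +kernel

/-- The coding of `Om`. -/
def cdf (p : ℕ × ℕ) : Om := (cl p.1, OK' p.2)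

theorem mv_OM (r : ℕ) (x y z : ℤ) : mv (OM r) (x, y, z) = okA r x y z := by
  rw [okA_lin r x y z]
  unfold mv OM
  simp only [Matrix.cons_val', Matrix.cons_val_zero, Matrix.cons_val_one, Matrix.cons_val,
    Matrix.of_apply]
  refine Prod.ext ?_ (Prod.ext ?_ ?_) <;> simp <;> ring

theorem SP_mem {s : ℕ} (hs : s < 12) : (⟨SU s, SU_mem s⟩ : Gp) ∈ PG := by
  change (SU s).1 *ᵥ (e5 : Fin 5 → ℤ) = e5
  rw [SU_val hs, SMt_mulVec]
  have h0 : okA s 0 0 0 = (0, 0, 0) := by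
    rw [okA_lin]
    simp
  simp [e5, h0]

theorem SP_inv {s : ℕ} (hs : s < 12) : mP (⟨⟨SU s, SU_mem s⟩, SP_mem hs⟩ : PG)⁻¹ = SMt (oinv s) := by
  change ((SU s)⁻¹).1 = _
  unfold SU
  rw [dif_pos hs]
  rfl

theorem cl_T (n : ℕ) (x y z : ℤ) :
    cl (20 * ((((n / 20 : ℕ) : ℤ) - x) % 2).toNat +
        ((((n % 20 : ℕ) : ℤ) - (z - 6 * x - 11 * y)) % 20).toNat) = cl n - ph (x, y, z) := by
  unfold cl ph
  have h1 : (20 * ((((n / 20 : ℕ) : ℤ) - x) % 2).toNat +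
        ((((n % 20 : ℕ) : ℤ) - (z - 6 * x - 11 * y)) % 20).toNat) / 20 =
      ((((n / 20 : ℕ) : ℤ) - x) % 2).toNat := by omega
  have h2 : (20 * ((((n / 20 : ℕ) : ℤ) - x) % 2).toNat +
        ((((n % 20 : ℕ) : ℤ) - (z - 6 * x - 11 * y)) % 20).toNat) % 20 =
      ((((n % 20 : ℕ) : ℤ) - (z - 6 * x - 11 * y)) % 20).toNat := by omega
  rw [h1, h2]
  have k1 : (((((n / 20 : ℕ) : ℤ) - x) % 2).toNat : ZMod 2) = ((n / 20 : ℕ) : ZMod 2) - (x : ZMod 2) := by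
    have : (((((n / 20 : ℕ) : ℤ) - x) % 2).toNat : ZMod 2) =
        (((((((n / 20 : ℕ) : ℤ) - x) % 2).toNat : ℕ) : ℤ) : ZMod 2) := by
      rw [Int.cast_natCast]
    rw [this, Int.toNat_of_nonneg (by omega)]
    have h3 : ((((((n / 20 : ℕ) : ℤ) - x) % 2 : ℤ)) : ZMod 2) = ((((n / 20 : ℕ) : ℤ) - x : ℤ) : ZMod 2) := by
      rw [ZMod.intCast_eq_intCast_iff]
      exact Int.mod_modEq _ _
    rw [h3]
    push_cast
    rfl
  have k2 : (((((n % 20 : ℕ) : ℤ) - (z - 6 * x - 11 * y)) % 20).toNat : ZMod 20) =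
      ((n % 20 : ℕ) : ZMod 20) - ((z - 6 * x - 11 * y : ℤ) : ZMod 20) := by
    have : (((((n % 20 : ℕ) : ℤ) - (z - 6 * x - 11 * y)) % 20).toNat : ZMod 20) =
        (((((((n % 20 : ℕ) : ℤ) - (z - 6 * x - 11 * y)) % 20).toNat : ℕ) : ℤ) : ZMod 20) := by
      rw [Int.cast_natCast]
    rw [this, Int.toNat_of_nonneg (by omega)]
    have h3 : ((((((n % 20 : ℕ) : ℤ) - (z - 6 * x - 11 * y)) % 20 : ℤ)) : ZMod 20) =
        ((((n % 20 : ℕ) : ℤ) - (z - 6 * x - 11 * y) : ℤ) : ZMod 20) := by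
      rw [ZMod.intCast_eq_intCast_iff]
      exact Int.mod_modEq _ _
    rw [h3, Int.cast_sub, Int.cast_natCast]
  rw [k1, k2]
  rfl

/-- The data on `Om`. -/
noncomputable def Dat : OData Om where
  ρ := actΩ
  cd := cdf
  surj := by
    rintro ⟨c, R⟩
    obtain ⟨n, hn, h1⟩ := cl_surj c
    obtain ⟨r, hr, h2⟩ := LO_OM R.1 (mem_LO R.2)
    refine ⟨n, hn, r, hr, Prod.ext h1 (Subtype.ext ?_)⟩
    rw [← h2]
    exact OK'_val hr
  inj := by
    intro n hn r hr n' hn' r' hr' h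
    have h1 := congrArg Prod.fst h
    have h2 := congrArg (fun w : Om => w.2.1) h
    refine ⟨cl_inj n hn n' hn' h1, OM_inj r hr r' hr' ?_⟩
    rw [← OK'_val hr, ← OK'_val hr']
    exact h2
  eqv := by
    intro l hl n hn r hr
    cases l with
    | J =>
      change actΩ MP55F.JG (cdf (n, r)) = _
      rw [actΩ_J]
      obtain ⟨h1, h2⟩ := cl_jc n hn
      simp only [actO, frc_eq]
      refine Prod.ext h1 (Subtype.ext ?_)
      change rc (cl n) * (OK' r).1 = (OK' (omul (rT n) r)).1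
      rw [OK'_val hr, OK'_val (omul_lt _ (rT_lt n hn) _ hr), h2, OM_mul _ (rT_lt n hn) _ hr]
    | T u v w =>
      change actΩ (TP (u, v, w) : Gp) (cdf (n, r)) = _
      rw [actΩ_T]
      simp only [actO, frc_eq]
      refine Prod.ext ?_ rfl
      change cl n - ph (mv (OK' r).1 (u, v, w)) = cl (20 * _ + _)
      rw [OK'_val hr, mv_OM, cl_T]
    | S s =>
      have hs : s < 12 := hl
      change actΩ ((⟨⟨SU s, SU_mem s⟩, SP_mem hs⟩ : PG) : Gp) (cdf (n, r)) = _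
      rw [actΩ_P]
      unfold ra
      have h1 : lnM (⟨⟨SU s, SU_mem s⟩, SP_mem hs⟩ : PG)⁻¹ = OM (oinv s) := by
        unfold lnM
        rw [SP_inv hs]
        rfl
      have h2 : trV (⟨⟨SU s, SU_mem s⟩, SP_mem hs⟩ : PG)⁻¹ = 0 := by
        unfold trV
        rw [SP_inv hs]
        rfl
      refine Prod.ext ?_ (Subtype.ext ?_)
      · change cl n + ph (mv (OK' r).1 (trV (⟨⟨SU s, SU_mem s⟩, SP_mem hs⟩ : PG)⁻¹)) = cl n
        rw [h2, mv_zero, ph_zero, add_zero]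
      · change (OK' r).1 * lnM (⟨⟨SU s, SU_mem s⟩, SP_mem hs⟩ : PG)⁻¹ = (OK' (omul r (oinv s))).1
        rw [h1, OK'_val hr, OK'_val (omul_lt _ hr _ (oinv_lt s hs)), OM_mul _ hr _ (oinv_lt s hs)]

/-- **Elements of finite order which fix a point of `Om` are trivial.** -/
theorem tf (g : Gp) (ω : Om) (hω : actΩ g ω = ω) (n : ℕ) (hn : 0 < n) (hg : g ^ n = 1) : g = 1 :=
  torsion_free Dat g ω hω n hn hg

end H4A2
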