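import Pool.Agent.Lib_MP_55d5ef_a2.Tf

/-!
# The nearest cusp to a fixed vector of an element of finite order
-/

open Matrix

namespace H4A2

open Lib_MP_55d5ef_geo MP55F

theorem bf_sum {ι : Type} (s : Finset ι) (u : Fin 5 → ℤ) (w : ι → Fin 5 → ℤ) :
    bf u (∑ i ∈ s, w i) = ∑ i ∈ s, bf u (w i) := by
  classical
  induction s using Finset.induction_on with
  | empty => simp [bf]
  | insert a s ha ih =>
    rw [Finset.sum_insert ha, Finset.sum_insert ha, ← ih]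
    simp only [bf, Pi.add_apply]
    ring

theorem bf_cu (g h : Gp) : - bf (cu g) (cu h) = (ht (g⁻¹ * h) : ℤ) := by
  rw [ht_cast, ← neg_neg (cu (g⁻¹ * h) 4), ← bf_e5' (cu (g⁻¹ * h)), cu_mul]
  have h1 : (g⁻¹).1.1 *ᵥ cu g = e5 := by
    unfold cu
    rw [Matrix.mulVec_mulVec]
    have h2 : (g⁻¹).1.1 * g.1.1 = 1 := by
      rw [← Units.val_mul, ← Subgroup.coe_mul, inv_mul_cancel]
      rfl
    rw [h2, Matrix.one_mulVec]
  have h3 : bf (e5 : Fin 5 → ℤ) ((g⁻¹).1.1 *ᵥ cu h) = bf (cu g) (cu h) := by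
    conv_lhs => rw [← h1]
    exact (g⁻¹).2.1 _ _
  rw [h3]

theorem cu_nb (c₁ c₂ c₃ : ℤ) :
    cu (lt (Lt.T c₁ c₂ c₃) * lt Lt.J) = vec (hK c₁ c₂ c₃, c₁, c₂, c₃, 1) := by
  rw [cu_mul]
  have h1 : cu (lt Lt.J) = vec (0, 0, 0, 0, 1) := by
    unfold cu
    rw [← vec_e, lt_mulVec Lt.J trivial]
    rfl
  rw [h1, lt_mulVec (Lt.T c₁ c₂ c₃) trivial]
  simp only [actV, frz_eq]
  congr 1
  simp [bK]

/-- The nearest cusp: after a conjugation, the base cusp is nearest to a fixed vector `x`. -/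
theorem nearest (g : Gp) (p : ℕ) (hp : 0 < p) (hg : g ^ p = 1) (hne : g.1.1 *ᵥ (e5 : Fin 5 → ℤ) ≠ e5) :
    ∃ (h : Gp) (x : Fin 5 → ℤ), (h⁻¹ * g * h).1.1 *ᵥ x = x ∧ 0 < x 4 ∧
      ∀ k : Gp, x 4 ≤ - bf (cu k) x := by
  classical
  -- minimal total height
  set N : Gp → ℕ := fun h => ∑ i ∈ Finset.range p, ht (h⁻¹ * g ^ i) with hN
  obtain ⟨h, -, hmin⟩ := WellFounded.has_min (measure N).wf (Set.univ : Set Gp) ⟨1, trivial⟩
  set x : Fin 5 → ℤ := ∑ i ∈ Finset.range p, cu (h⁻¹ * g ^ i) with hx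
  have hval : ∀ k : Gp, - bf (cu k) x = (N (h * k) : ℤ) := by
    intro k
    rw [hx, bf_sum, ← Finset.sum_neg_distrib, hN]
    push_cast
    refine Finset.sum_congr rfl fun i _ => ?_
    rw [bf_cu]
    congr 2
    rw [_root_.mul_inv_rev]
    group
  have hx4 : x 4 = (N h : ℤ) := by
    have h1 := hval 1
    rw [mul_one] at h1
    rw [← h1]
    have h2 : cu 1 = e5 := by simp [cu]
    rw [h2, bf_e5', neg_neg]
  refine ⟨h, x, ?_, ?_, ?_⟩
  · -- the vector is fixed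
    rw [hx, Matrix.mulVec_sum]
    have h1 : ∀ i ∈ Finset.range p, (h⁻¹ * g * h).1.1 *ᵥ cu (h⁻¹ * g ^ i) = cu (h⁻¹ * g ^ (i + 1)) := by
      intro i _
      rw [← cu_mul]
      congr 1
      rw [pow_succ' g i]
      group
    rw [Finset.sum_congr rfl h1]
    have h2 := Finset.sum_range_succ' (fun i => cu (h⁻¹ * g ^ i)) p
    rw [Finset.sum_range_succ] at h2
    rw [hg, pow_zero] at h2
    exact (add_right_cancel h2).symm
  · rw [hx4]
    rcases Nat.eq_zero_or_pos (N h) with h0 | h0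
    · exfalso
      have h1 : ∀ i ∈ Finset.range p, ht (h⁻¹ * g ^ i) = 0 := by
        intro i hi
        have := Finset.sum_eq_zero_iff.1 h0 i hi
        exact this
      have h2 : ∀ i < p, (g ^ i).1.1 *ᵥ (e5 : Fin 5 → ℤ) = cu h := by
        intro i hi
        have h3 := ht0 _ (h1 i (Finset.mem_range.2 hi))
        rw [mem_PG] at h3
        have h4 : cu (h * (h⁻¹ * g ^ i)) = cu h := by
          rw [cu_mul]
          change h.1.1 *ᵥ ((h⁻¹ * g ^ i).1.1 *ᵥ e5) = h.1.1 *ᵥ e5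
          rw [h3]
        rw [mul_inv_cancel_left] at h4
        exact h4
      have h3 := h2 0 hp
      have h4 : 1 < p := by
        rcases Nat.lt_or_ge 1 p with h5 | h5
        · exact h5
        · exfalso
          have h6 : p = 1 := by omega
          rw [h6, pow_one] at hg
          apply hne
          rw [hg]
          simp
      have h5 := h2 1 h4
      rw [pow_one] at h5
      rw [pow_zero] at h3
      apply hne
      rw [h5, ← h3]
      simp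
    · exact_mod_cast h0
  · intro k
    rw [hval, hx4]
    have h1 := hmin (h * k) trivial
    have h2 : ¬ (N (h * k) < N h) := h1
    exact_mod_cast not_lt.1 h2

/-- The data of an element which moves the base cusp and fixes a vector to which the base cusp is
nearest. -/
theorem data (g : Gp) (x : Fin 5 → ℤ) (hx : g.1.1 *ᵥ x = x) (hx4 : 0 < x 4)
    (hmin : ∀ k : Gp, x 4 ≤ - bf (cu k) x) (hne : g.1.1 *ᵥ (e5 : Fin 5 → ℤ) ≠ e5) :
    ∃ (a a' b k₁ k₂ k₃ l₁ l₂ l₃ : ℤ), cu g = vec (a, k₁, k₂, k₃, b) ∧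
      cu g⁻¹ = vec (a', l₁, l₂, l₃, b) ∧ hK k₁ k₂ k₃ = a * b ∧ hK l₁ l₂ l₃ = a' * b ∧
      0 < b ∧ b ≤ 4 ∧ hK (k₁ - l₁) (k₂ - l₂) (k₃ - l₃) ≤ 4 * b - b ^ 2 ∧
      (b = 4 → ∀ c₁ c₂ c₃ : ℤ, 12 ≤ hK (4 * c₁ - k₁) (4 * c₂ - k₂) (4 * c₃ - k₃)) := by
  set v := cu g with hv
  set v' := cu g⁻¹ with hv'
  have hb : v' 4 = v 4 := by
    have h1 : bf (e5 : Fin 5 → ℤ) v' = bf v e5 := by
      have h2 : bf (g.1.1 *ᵥ (e5 : Fin 5 → ℤ)) (g.1.1 *ᵥ v') = bf e5 v' := g.2.1 _ _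
      rw [← h2]
      have h3 : g.1.1 *ᵥ v' = e5 := by
        rw [hv', ← cu_mul, mul_inv_cancel]
        simp [cu]
      rw [h3]
      rfl
    rw [MP55F.bf_e5', Lib_MP_55d5ef_geo.bf_comm, MP55F.bf_e5'] at h1
    linarith
  have hiso : hK (v 1) (v 2) (v 3) = v 0 * v 4 := by
    have h1 := cu_iso g
    rw [← hv, bf_bK, bK_self] at h1
    linarith
  have hiso' : hK (v' 1) (v' 2) (v' 3) = v' 0 * v 4 := by
    have h1 := cu_iso g⁻¹
    rw [← hv', bf_bK, bK_self] at h1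
    rw [← hb]
    linarith
  have hb0 : 0 < v 4 := by
    have h1 := cu_nonneg g
    rw [← hv] at h1
    rcases lt_or_eq_of_le h1 with h2 | h2
    · exact h2
    · exfalso
      apply hne
      have h3 : ht g = 0 := by
        have h4 := ht_cast g
        rw [← hv, ← h2] at h4
        exact_mod_cast h4
      exact ht0 g h3
  have hvx : v 0 * x 4 + x 0 * v 4 - bK (v 1) (v 2) (v 3) (x 1) (x 2) (x 3) = x 4 := by
    have h1 : bf v x = bf e5 x := by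
      conv_lhs => rw [← hx]
      exact g.2.1 _ _
    rw [MP55F.bf_e5', bf_bK] at h1
    linarith
  have hvx' : v' 0 * x 4 + x 0 * v 4 - bK (v' 1) (v' 2) (v' 3) (x 1) (x 2) (x 3) = x 4 := by
    have h1 : bf v' x = bf e5 x := by
      have h2 : (g⁻¹).1.1 *ᵥ x = x := inv_mulVec g x x hx
      conv_lhs => rw [← h2]
      exact (g⁻¹).2.1 _ _
    rw [MP55F.bf_e5', bf_bK, hb] at h1
    linarith
  have hm : ∀ c₁ c₂ c₃ : ℤ, x 4 ≤ hK c₁ c₂ c₃ * x 4 + x 0 - bK c₁ c₂ c₃ (x 1) (x 2) (x 3) := by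
    intro c₁ c₂ c₃
    have h1 := hmin (lt (Lt.T c₁ c₂ c₃) * lt Lt.J)
    rw [cu_nb, bf_bK] at h1
    simp only [vec, Matrix.cons_val] at h1
    linarith
  have hq : H4A2.qK (v 1) (v 2) (v 3) = 2 * v 0 * v 4 := by rw [H4A2.qK_eq, hiso]; ring
  have hq' : H4A2.qK (v' 1) (v' 2) (v' 3) = 2 * v' 0 * v 4 := by rw [H4A2.qK_eq, hiso']; ring
  have hle := height_le (x 0) (x 1) (x 2) (x 3) (x 4) (v 0) (v 1) (v 2) (v 3) (v 4) hx4 hb0 hq hvx hm
  have hd := dist_le (x 0) (x 1) (x 2) (x 3) (x 4) (v 0) (v 1) (v 2) (v 3) (v' 0) (v' 1) (v' 2)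
    (v' 3) (v 4) hx4 hq hq' hvx hvx' hm
  refine ⟨v 0, v' 0, v 4, v 1, v 2, v 3, v' 1, v' 2, v' 3, (vec_of v).symm, ?_, hiso, hiso', hb0,
    hle, ?_, ?_⟩
  · rw [← hb]
    exact (vec_of v').symm
  · rw [H4A2.qK_eq] at hd
    linarith
  · intro h4 c₁ c₂ c₃
    have hD := D_ge (x 0) (x 1) (x 2) (x 3) (x 4) hx4 hm
    set D := 2 * x 0 * x 4 - H4A2.qK (x 1) (x 2) (x 3) with hDdef
    have h1 := dist_formula (x 0) (x 1) (x 2) (x 3) (x 4) (v 0) (v 1) (v 2) (v 3) (v 4) hq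
    rw [hvx, h4, ← hDdef] at h1
    have h2 := H4A2.qK_nonneg (x 4 * v 1 - 4 * x 1) (x 4 * v 2 - 4 * x 2) (x 4 * v 3 - 4 * x 3)
    have h3 : H4A2.qK (x 4 * v 1 - 4 * x 1) (x 4 * v 2 - 4 * x 2) (x 4 * v 3 - 4 * x 3) = 0 := by
      nlinarith
    have h5 : 2 * D = x 4 ^ 2 := by nlinarith
    -- the centre is `v / 4`
    have h6 : x 4 * v 1 = 4 * x 1 ∧ x 4 * v 2 = 4 * x 2 ∧ x 4 * v 3 = 4 * x 3 := by
      set A := x 4 * v 1 - 4 * x 1 with hA
      set B := x 4 * v 2 - 4 * x 2 with hB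
      set C := x 4 * v 3 - 4 * x 3 with hC
      have h7 : (A - B) ^ 2 + B ^ 2 + 3 * C ^ 2 + (C - A) ^ 2 = 0 := by
        rw [← h3]
        unfold H4A2.qK
        ring
      have hB0 : B = 0 := by
        have : B ^ 2 = 0 := by nlinarith [sq_nonneg (A - B), sq_nonneg B, sq_nonneg C, sq_nonneg (C - A)]
        exact pow_eq_zero_iff (two_ne_zero) |>.1 this
      have hC0 : C = 0 := by
        have : C ^ 2 = 0 := by nlinarith [sq_nonneg (A - B), sq_nonneg B, sq_nonneg C, sq_nonneg (C - A)]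
        exact pow_eq_zero_iff (two_ne_zero) |>.1 this
      have hA0 : A - B = 0 := by
        have : (A - B) ^ 2 = 0 := by nlinarith [sq_nonneg (A - B), sq_nonneg B, sq_nonneg C, sq_nonneg (C - A)]
        exact pow_eq_zero_iff (two_ne_zero) |>.1 this
      omega
    have h8 := dist_formula (x 0) (x 1) (x 2) (x 3) (x 4) (hK c₁ c₂ c₃) c₁ c₂ c₃ 1 (by
      rw [H4A2.qK_eq]; ring)
    rw [← hDdef] at h8
    simp only [one_mul, one_pow, mul_one] at h8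
    have h9 := hm c₁ c₂ c₃
    have h10 : 2 * x 4 * x 4 ≤ 2 * x 4 * (hK c₁ c₂ c₃ * x 4 + x 0 - bK c₁ c₂ c₃ (x 1) (x 2) (x 3)) :=
      mul_le_mul_of_nonneg_left h9 (by omega)
    have h11 : 3 * x 4 ^ 2 ≤ 2 * H4A2.qK (x 4 * c₁ - x 1) (x 4 * c₂ - x 2) (x 4 * c₃ - x 3) := by
      nlinarith
    have h12 : 16 * H4A2.qK (x 4 * c₁ - x 1) (x 4 * c₂ - x 2) (x 4 * c₃ - x 3) =
        x 4 ^ 2 * H4A2.qK (4 * c₁ - v 1) (4 * c₂ - v 2) (4 * c₃ - v 3) := by
      have e1 : 4 * (x 4 * c₁ - x 1) = x 4 * (4 * c₁ - v 1) := by linear_combination h6.1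
      have e2 : 4 * (x 4 * c₂ - x 2) = x 4 * (4 * c₂ - v 2) := by linear_combination h6.2.1
      have e3 : 4 * (x 4 * c₃ - x 3) = x 4 * (4 * c₃ - v 3) := by linear_combination h6.2.2
      have e4 : 16 * H4A2.qK (x 4 * c₁ - x 1) (x 4 * c₂ - x 2) (x 4 * c₃ - x 3) =
          H4A2.qK (4 * (x 4 * c₁ - x 1)) (4 * (x 4 * c₂ - x 2)) (4 * (x 4 * c₃ - x 3)) := by
        unfold H4A2.qK
        ring
      rw [e4, e1, e2, e3]
      unfold H4A2.qK
      ring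
    rw [H4A2.qK_eq (4 * c₁ - v 1)] at h12
    have h13 : x 4 ^ 2 * 12 ≤ x 4 ^ 2 * hK (4 * c₁ - v 1) (4 * c₂ - v 2) (4 * c₃ - v 3) := by
      nlinarith
    exact le_of_mul_le_mul_left h13 (by positivity)

end H4A2
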