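import Mathlib

/-!
# Prime orders of 5 × 5 integer matrices
-/

namespace H4A2

open Polynomial

theorem prime_order_rat {n : ℕ} (M : Matrix (Fin n) (Fin n) ℚ) (p : ℕ) (hp : p.Prime)
    (h : M ^ p = 1) (h1 : M ≠ 1) : p ≤ n + 1 := by
  by_contra hlt
  push Not at hlt
  have : Fact p.Prime := ⟨hp⟩
  have hdeg : (minpoly ℚ M).natDegree ≤ n := by
    have h2 := natDegree_le_of_dvd (Matrix.minpoly_dvd_charpoly M) (Matrix.charpoly_monic M).ne_zero
    rwa [Matrix.charpoly_natDegree_eq_dim, Fintype.card_fin] at h2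
  have hdvd : minpoly ℚ M ∣ (X - 1) * cyclotomic p ℚ := by
    have h3 : (X - 1 : ℚ[X]) * cyclotomic p ℚ = X ^ p - 1 := by
      rw [mul_comm, cyclotomic_prime_mul_X_sub_one ℚ p]
    rw [h3]
    apply minpoly.dvd
    simp [h]
  have hirr : Irreducible (cyclotomic p ℚ) := cyclotomic.irreducible_rat hp.pos
  have hcop : IsCoprime (cyclotomic p ℚ) (minpoly ℚ M) := by
    rw [hirr.coprime_iff_not_dvd]
    intro h4
    have h5 := natDegree_le_of_dvd h4 (minpoly.ne_zero (Matrix.isIntegral M))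
    rw [natDegree_cyclotomic, Nat.totient_prime hp] at h5
    omega
  have h6 : minpoly ℚ M ∣ X - 1 := hcop.symm.dvd_of_dvd_mul_right hdvd
  have h7 : aeval M (X - 1 : ℚ[X]) = 0 := by
    obtain ⟨r, hr⟩ := h6
    rw [hr, map_mul, minpoly.aeval, zero_mul]
  apply h1
  simpa [sub_eq_zero] using h7

theorem prime_order (M : Matrix (Fin 5) (Fin 5) ℤ) (p : ℕ) (hp : p.Prime)
    (h : M ^ p = 1) (h1 : M ≠ 1) : p = 2 ∨ p = 3 ∨ p = 5 := by
  set φ := (Int.castRingHom ℚ).mapMatrix (m := Fin 5) with hφ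
  have h2 : (φ M) ^ p = 1 := by
    rw [← map_pow, h, map_one]
  have hinj : Function.Injective φ := by
    intro A B hAB
    ext i j
    have h7 : (φ A) i j = (φ B) i j := by rw [hAB]
    have h8 : ((A i j : ℤ) : ℚ) = ((B i j : ℤ) : ℚ) := h7
    exact_mod_cast h8
  have h4 : φ M ≠ 1 := by
    intro h5
    apply h1
    apply hinj
    rw [h5, map_one]
  have h8 := prime_order_rat _ p hp h2 h4
  have h9 : p ≤ 6 := h8
  have h10 := hp.two_le
  interval_cases p
  · exact Or.inl rfl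
  · exact Or.inr (Or.inl rfl)
  · exact absurd hp (by norm_num)
  · exact Or.inr (Or.inr rfl)
  · exact absurd hp (by norm_num)

end H4A2
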