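import Pool.Agent.Lib_MP_55d5ef_a2.Elt

/-!
# The stabilizer of the base cusp
-/

open Matrix

namespace H4A2

open Lib_MP_55d5ef_geo MP55F

theorem hK_eq (x y z : ℤ) : 2 * hK x y z = (x - y) ^ 2 + y ^ 2 + 3 * z ^ 2 + (z - x) ^ 2 := by
  unfold hK
  ring

theorem hK_bounds {x y z : ℤ} (h : hK x y z ≤ 4) :
    (-4 ≤ x ∧ x ≤ 4) ∧ (-2 ≤ y ∧ y ≤ 2) ∧ (-1 ≤ z ∧ z ≤ 1) := by
  have h1 := hK_eq x y z
  have hy : y ^ 2 ≤ 8 := by nlinarith [sq_nonneg (x - y), sq_nonneg z, sq_nonneg (z - x)]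
  have hz : z ^ 2 ≤ 2 := by nlinarith [sq_nonneg (x - y), sq_nonneg y, sq_nonneg (z - x)]
  have hzx : (z - x) ^ 2 ≤ 8 := by nlinarith [sq_nonneg (x - y), sq_nonneg y, sq_nonneg z]
  have hy1 : -2 ≤ y := by nlinarith
  have hy2 : y ≤ 2 := by nlinarith
  have hz1 : -1 ≤ z := by nlinarith
  have hz2 : z ≤ 1 := by nlinarith
  have hx1 : -2 ≤ z - x := by nlinarith
  have hx2 : z - x ≤ 2 := by nlinarith
  omega

theorem mem_L_aux : ∀ x ∈ Finset.Icc (-4 : ℤ) 4, ∀ y ∈ Finset.Icc (-2 : ℤ) 2,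
    ∀ z ∈ Finset.Icc (-1 : ℤ) 1, (hK x y z ≤ 4 → (x, y, z) ∈ L8) ∧
      (hK x y z ≤ 3 → (x, y, z) ∈ L6) := by
  decide +kernel

theorem mem_L8 {x y z : ℤ} (h : hK x y z ≤ 4) : (x, y, z) ∈ L8 := by
  obtain ⟨hx, hy, hz⟩ := hK_bounds h
  exact (mem_L_aux x (Finset.mem_Icc.2 hx) y (Finset.mem_Icc.2 hy) z (Finset.mem_Icc.2 hz)).1 h

theorem mem_L6 {x y z : ℤ} (h : hK x y z ≤ 3) : (x, y, z) ∈ L6 := by
  obtain ⟨hx, hy, hz⟩ := hK_bounds (h.trans (by norm_num))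
  exact (mem_L_aux x (Finset.mem_Icc.2 hx) y (Finset.mem_Icc.2 hy) z (Finset.mem_Icc.2 hz)).2 h

/-- The vectors of norm 2 and of norm 4. -/
def M2 : List (ℤ × ℤ × ℤ) := L6.filter fun v => decide (hK v.1 v.2.1 v.2.2 = 1)

/-- The vectors of norm 4. -/
def M4 : List (ℤ × ℤ × ℤ) := L6.filter fun v => decide (hK v.1 v.2.1 v.2.2 = 2)

theorem OK_aux : (M2.all fun a => M2.all fun b => M4.all fun c =>
    !(decide (bK a.1 a.2.1 a.2.2 b.1 b.2.1 b.2.2 = -1 ∧ bK a.1 a.2.1 a.2.2 c.1 c.2.1 c.2.2 = -1 ∧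
      bK b.1 b.2.1 b.2.2 c.1 c.2.1 c.2.2 = 0)) ||
      (List.range 12).any fun r => decide (okA r 1 0 0 = a ∧ okA r 0 1 0 = b ∧
        okA r 0 0 1 = c)) = true := by
  decide +kernel

theorem bK_self (x y z : ℤ) : bK x y z x y z = 2 * hK x y z := by
  unfold bK hK
  ring

/-- Every isometry of `K` is one of the twelve elements. -/
theorem OK_list (a₁ a₂ a₃ b₁ b₂ b₃ c₁ c₂ c₃ : ℤ) (haa : bK a₁ a₂ a₃ a₁ a₂ a₃ = 2)
    (hbb : bK b₁ b₂ b₃ b₁ b₂ b₃ = 2) (hcc : bK c₁ c₂ c₃ c₁ c₂ c₃ = 4)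
    (hab : bK a₁ a₂ a₃ b₁ b₂ b₃ = -1) (hac : bK a₁ a₂ a₃ c₁ c₂ c₃ = -1)
    (hbc : bK b₁ b₂ b₃ c₁ c₂ c₃ = 0) :
    ∃ r < 12, okA r 1 0 0 = (a₁, a₂, a₃) ∧ okA r 0 1 0 = (b₁, b₂, b₃) ∧
      okA r 0 0 1 = (c₁, c₂, c₃) := by
  rw [bK_self] at haa hbb hcc
  have ha : (a₁, a₂, a₃) ∈ M2 := List.mem_filter.2 ⟨mem_L6 (by omega), by simpa using by omega⟩
  have hb : (b₁, b₂, b₃) ∈ M2 := List.mem_filter.2 ⟨mem_L6 (by omega), by simpa using by omega⟩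
  have hc : (c₁, c₂, c₃) ∈ M4 := List.mem_filter.2 ⟨mem_L6 (by omega), by simpa using by omega⟩
  have h1 := List.all_eq_true.1 (List.all_eq_true.1 (List.all_eq_true.1 OK_aux _ ha) _ hb) _ hc
  rw [Bool.or_eq_true] at h1
  rcases h1 with h1 | h1
  · rw [Bool.not_eq_true', decide_eq_false_iff_not] at h1
    exact absurd ⟨hab, hac, hbc⟩ h1
  · obtain ⟨r, hr, h⟩ := List.any_eq_true.1 h1
    exact ⟨r, List.mem_range.1 hr, of_decide_eq_true h⟩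

theorem mulVec_basis (M : Matrix (Fin 5) (Fin 5) ℤ) (u : Fin 5 → ℤ) (i : Fin 5) :
    (M *ᵥ u) i = M i 0 * u 0 + M i 1 * u 1 + M i 2 * u 2 + M i 3 * u 3 + M i 4 * u 4 := by
  simp [Matrix.mulVec, dotProduct, Fin.sum_univ_five]

/-- An isometry which fixes `e` and `f` is one of the twelve elements of `O(K)`. -/
theorem fix_ef (g : GL (Fin 5) ℤ) (hg : isomG g) (he : g.1 *ᵥ (e5 : Fin 5 → ℤ) = e5)
    (hf : g.1 *ᵥ (f5 : Fin 5 → ℤ) = f5) : ∃ r < 12, g.1 = SMt r := by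
  have c0 : ∀ i, g.1 i 0 = (e5 : Fin 5 → ℤ) i := by
    intro i
    have := congrFun he i
    rw [mulVec_basis] at this
    simpa [e5] using this
  have c4 : ∀ i, g.1 i 4 = f5 i := by
    intro i
    have := congrFun hf i
    rw [mulVec_basis] at this
    simpa [f5] using this
  -- rows 0 and 4 of the middle columns
  have hmid : ∀ u : Fin 5 → ℤ, u 0 = 0 → u 4 = 0 → (g.1 *ᵥ u) 4 = 0 ∧ (g.1 *ᵥ u) 0 = 0 := by
    intro u h0 h4
    constructor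
    · have h1 := hg e5 u
      rw [he] at h1
      simp only [bf, e5, Matrix.cons_val] at h1
      rw [h4] at h1
      linarith
    · have h1 := hg f5 u
      rw [hf] at h1
      simp only [bf, f5, Matrix.cons_val] at h1
      rw [h0] at h1
      linarith
  have hcol : ∀ (u w : Fin 5 → ℤ), u 0 = 0 → u 4 = 0 → w 0 = 0 → w 4 = 0 →
      bK ((g.1 *ᵥ u) 1) ((g.1 *ᵥ u) 2) ((g.1 *ᵥ u) 3) ((g.1 *ᵥ w) 1) ((g.1 *ᵥ w) 2)
        ((g.1 *ᵥ w) 3) = bK (u 1) (u 2) (u 3) (w 1) (w 2) (w 3) := by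
    intro u w hu0 hu4 hw0 hw4
    have h1 := hg u w
    rw [bf_bK, bf_bK] at h1
    obtain ⟨h2, h3⟩ := hmid u hu0 hu4
    obtain ⟨h4, h5⟩ := hmid w hw0 hw4
    rw [h2, h3, h4, h5, hu0, hu4, hw0, hw4] at h1
    linarith
  set A : Fin 5 → ℤ := ![0, 1, 0, 0, 0] with hA
  set B : Fin 5 → ℤ := ![0, 0, 1, 0, 0] with hB
  set C : Fin 5 → ℤ := ![0, 0, 0, 1, 0] with hC
  have gA : ∀ i, (g.1 *ᵥ A) i = g.1 i 1 := by
    intro i
    rw [mulVec_basis]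
    simp [hA]
  have gB : ∀ i, (g.1 *ᵥ B) i = g.1 i 2 := by
    intro i
    rw [mulVec_basis]
    simp [hB]
  have gC : ∀ i, (g.1 *ᵥ C) i = g.1 i 3 := by
    intro i
    rw [mulVec_basis]
    simp [hC]
  have hAA := hcol A A rfl rfl rfl rfl
  have hBB := hcol B B rfl rfl rfl rfl
  have hCC := hcol C C rfl rfl rfl rfl
  have hAB := hcol A B rfl rfl rfl rfl
  have hAC := hcol A C rfl rfl rfl rfl
  have hBC := hcol B C rfl rfl rfl rfl
  have hmA := hmid A rfl rfl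
  have hmB := hmid B rfl rfl
  have hmC := hmid C rfl rfl
  simp only [gA, gB, gC] at hAA hBB hCC hAB hAC hBC hmA hmB hmC
  obtain ⟨r, hr, h1, h2, h3⟩ := OK_list _ _ _ _ _ _ _ _ _ (hAA.trans (by simp [hA, bK]))
    (hBB.trans (by simp [hB, bK])) (hCC.trans (by simp [hC, bK]))
    (hAB.trans (by simp [hA, hB, bK])) (hAC.trans (by simp [hA, hC, bK]))
    (hBC.trans (by simp [hB, hC, bK]))
  refine ⟨r, hr, ?_⟩
  ext i j
  unfold SMt
  rw [h1, h2, h3]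
  fin_cases j
  · fin_cases i <;> exact c0 _
  · fin_cases i
    · simpa using hmA.2
    · simp
    · simp
    · simp
    · simpa using hmA.1
  · fin_cases i
    · simpa using hmB.2
    · simp
    · simp
    · simp
    · simpa using hmB.1
  · fin_cases i
    · simpa using hmC.2
    · simp
    · simp
    · simp
    · simpa using hmC.1
  · fin_cases i <;> exact c4 _

/-- The stabilizer of the base cusp. -/
theorem stab_form (g : Gp) (hg : g.1.1 *ᵥ (e5 : Fin 5 → ℤ) = e5) :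
    ∃ (x y z : ℤ) (r : ℕ), r < 12 ∧ g = lt (Lt.T x y z) * lt (Lt.S r) := by
  -- the image of `f`
  set w := g.1.1 *ᵥ (f5 : Fin 5 → ℤ) with hw
  have h4 : w 4 = 1 := by
    have h1 := g.2.1 e5 f5
    rw [hg, ← hw] at h1
    simp only [bf, e5, f5, Matrix.cons_val] at h1
    linarith
  have hiso : bf w w = 0 := by
    have h1 := g.2.1 f5 f5
    rw [← hw] at h1
    rw [h1]
    simp [bf, f5]
  set t : Gp := lt (Lt.T (w 1) (w 2) (w 3)) with ht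
  have hte : t.1.1 *ᵥ (e5 : Fin 5 → ℤ) = e5 := by
    have h1 := lt_mulVec (Lt.T (w 1) (w 2) (w 3)) trivial (1, 0, 0, 0, 0)
    have h2 : vec (1, 0, 0, 0, 0) = (e5 : Fin 5 → ℤ) := by
      ext i
      fin_cases i <;> rfl
    rw [h2] at h1
    rw [ht, h1]
    ext i
    fin_cases i <;> simp [actV, frz_eq, vec, e5, bK, hK]
  have htf : t.1.1 *ᵥ (f5 : Fin 5 → ℤ) = w := by
    have h1 := lt_mulVec (Lt.T (w 1) (w 2) (w 3)) trivial (0, 0, 0, 0, 1)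
    have h2 : vec (0, 0, 0, 0, 1) = (f5 : Fin 5 → ℤ) := by
      ext i
      fin_cases i <;> rfl
    rw [h2] at h1
    rw [ht, h1]
    rw [bf_bK, h4, bK_self] at hiso
    ext i
    fin_cases i
    · simp [actV, frz_eq, vec, bK]
      linarith
    · simp [actV, frz_eq, vec]
    · simp [actV, frz_eq, vec]
    · simp [actV, frz_eq, vec]
    · simp [actV, frz_eq, vec, h4]
  have hinv : ∀ (u v : Fin 5 → ℤ), t.1.1 *ᵥ u = v → (t⁻¹).1.1 *ᵥ v = u := by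
    intro u v huv
    rw [← huv, Matrix.mulVec_mulVec]
    have h1 : (t⁻¹).1.1 * t.1.1 = 1 := by
      rw [← Units.val_mul, ← Subgroup.coe_mul, inv_mul_cancel]
      rfl
    rw [h1, Matrix.one_mulVec]
  obtain ⟨r, hr, hrr⟩ := fix_ef (t⁻¹ * g).1 (t⁻¹ * g).2.1 (by
      change ((t⁻¹).1.1 * g.1.1) *ᵥ _ = _
      rw [← Matrix.mulVec_mulVec, hg]
      exact hinv _ _ hte) (by
      change ((t⁻¹).1.1 * g.1.1) *ᵥ _ = _
      rw [← Matrix.mulVec_mulVec, ← hw]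
      exact hinv _ _ htf)
  refine ⟨w 1, w 2, w 3, r, hr, ?_⟩
  have h5 : t⁻¹ * g = lt (Lt.S r) := by
    apply Subtype.ext
    apply Units.ext
    rw [hrr]
    exact (SU_val hr).symm
  rw [← h5, ← ht]
  group

end H4A2
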