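import Pool.Agent.Lib_MP_55d5ef_a2.Stb
import Pool.Agent.Lib_MP_55d5ef_a2.Prime

/-!
# Elements of finite order have no fixed points on the 480 points

`OData`: an action of the group `Gp` of the forward isometries on a set `Ω`, with a coding of `Ω` by
the pairs `(n, r)`, `n < 40`, `r < 12`, which is compatible with the letters.
-/

open Matrix

namespace H4A2

open Lib_MP_55d5ef_geo MP55F

/-- The action on the 480 points, in coordinates. -/
structure OData (Ω : Type) where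
  ρ : Gp →* Equiv.Perm Ω
  cd : ℕ × ℕ → Ω
  surj : ∀ ω, ∃ n < 40, ∃ r < 12, cd (n, r) = ω
  inj : ∀ n < 40, ∀ r < 12, ∀ n' < 40, ∀ r' < 12, cd (n, r) = cd (n', r') → n = n' ∧ r = r'
  eqv : ∀ l, okL l → ∀ n < 40, ∀ r < 12, ρ (lt l) (cd (n, r)) = cd (actO l (n, r))

theorem jT_lt : ∀ n < 40, jT n < 40 := by decide +kernel

theorem rT_lt : ∀ n < 40, rT n < 12 := by decide +kernel

theorem oinv_lt : ∀ n < 12, oinv n < 12 := by decide +kernel

theorem omul_lt : ∀ n < 12, ∀ m < 12, omul n m < 12 := by decide +kernel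

theorem omul_fix : ∀ n < 12, ∀ m < 12, omul n (oinv m) = n → m = 9 := by decide +kernel

theorem actO_lt (l : Lt) (hl : okL l) (n r : ℕ) (hn : n < 40) (hr : r < 12) :
    (actO l (n, r)).1 < 40 ∧ (actO l (n, r)).2 < 12 := by
  cases l with
  | J =>
    simp only [actO, frc_eq]
    exact ⟨jT_lt n hn, omul_lt _ (rT_lt n hn) _ hr⟩
  | T u v w =>
    simp only [actO, frc_eq]
    refine ⟨?_, hr⟩
    show 20 * ((((n / 20 : ℕ) : ℤ) - (okA r u v w).1) % 2).toNat +
      ((((n % 20 : ℕ) : ℤ) - ((okA r u v w).2.2 - 6 * (okA r u v w).1 -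
        11 * (okA r u v w).2.1)) % 20).toNat < 40
    omega
  | S s =>
    exact ⟨hn, omul_lt _ hr _ (oinv_lt s hl)⟩

theorem wO_eqv {Ω : Type} (D : OData Ω) (l : List Lt) (hl : ∀ a ∈ l, okL a) (n r : ℕ)
    (hn : n < 40) (hr : r < 12) : (wO l (n, r)).1 < 40 ∧ (wO l (n, r)).2 < 12 ∧
      D.ρ (wd l) (D.cd (n, r)) = D.cd (wO l (n, r)) := by
  induction l with
  | nil => exact ⟨hn, hr, by simp [wd_nil, wO]⟩
  | cons a l ih =>
    obtain ⟨h1, h2, h3⟩ := ih fun b hb => hl b (List.mem_cons_of_mem _ hb)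
    have h4 := actO_lt a (hl a List.mem_cons_self) _ _ h1 h2
    refine ⟨h4.1, h4.2, ?_⟩
    rw [wd_cons, map_mul, Equiv.Perm.mul_apply, h3]
    exact D.eqv a (hl a List.mem_cons_self) _ h1 _ h2

/-- A word of prime order which passes the check has no fixed point. -/
theorem no_fix {Ω : Type} (D : OData Ω) (l : List Lt) (hl : ∀ a ∈ l, okL a) (hc : chk l = true)
    (p : ℕ) (hp : p = 2 ∨ p = 3 ∨ p = 5) (h : (wd l) ^ p = 1) (ω : Ω) (hω : D.ρ (wd l) ω = ω) :
    False := by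
  have h1 := isId_of_pow l hl p h
  unfold chk at hc
  have h2 : noFix l = true := by
    rcases hp with rfl | rfl | rfl <;> simpa [h1] using hc
  obtain ⟨n, hn, r, hr, rfl⟩ := D.surj ω
  obtain ⟨h3, h4, h5⟩ := wO_eqv D l hl n r hn hr
  rw [hω] at h5
  obtain ⟨h6, h7⟩ := D.inj n hn r hr _ h3 _ h4 h5
  unfold noFix at h2
  have h8 := List.all_eq_true.1 (List.all_eq_true.1 h2 n (List.mem_range.2 hn)) r
    (List.mem_range.2 hr)
  rw [Bool.not_eq_true', decide_eq_false_iff_not] at h8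
  apply h8
  exact Prod.ext h6.symm h7.symm

theorem inv_mulVec (t : Gp) (u v : Fin 5 → ℤ) (huv : t.1.1 *ᵥ u = v) : (t⁻¹).1.1 *ᵥ v = u := by
  rw [← huv, Matrix.mulVec_mulVec]
  have h1 : (t⁻¹).1.1 * t.1.1 = 1 := by
    rw [← Units.val_mul, ← Subgroup.coe_mul, inv_mul_cancel]
    rfl
  rw [h1, Matrix.one_mulVec]

theorem vec_e : vec (1, 0, 0, 0, 0) = (e5 : Fin 5 → ℤ) := by
  ext i
  fin_cases i <;> rfl

theorem lt_T_pow (x y z : ℤ) (p : ℕ) :
    (lt (Lt.T x y z)) ^ p = lt (Lt.T (p * x) (p * y) (p * z)) := by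
  induction p with
  | zero =>
    rw [pow_zero]
    apply Subtype.ext
    apply Units.ext
    show (1 : Matrix (Fin 5) (Fin 5) ℤ) = TM (((0 : ℕ) : ℤ) * x) (((0 : ℕ) : ℤ) * y) (((0 : ℕ) : ℤ) * z)
    rw [Nat.cast_zero, zero_mul, zero_mul, zero_mul, MP55F.TM_zero]
  | succ p ih =>
    rw [pow_succ, ih]
    apply Subtype.ext
    apply Units.ext
    show TM ((p : ℤ) * x) ((p : ℤ) * y) ((p : ℤ) * z) * TM x y z =
      (TM (((p + 1 : ℕ) : ℤ) * x) (((p + 1 : ℕ) : ℤ) * y) (((p + 1 : ℕ) : ℤ) * z) :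
        Matrix (Fin 5) (Fin 5) ℤ)
    rw [MP55F.TM_mul]
    congr 1 <;> push_cast <;> ring

/-- Elements of prime order which fix the base cusp have no fixed point. -/
theorem no_fix_stab {Ω : Type} (D : OData Ω) (g : Gp) (he : g.1.1 *ᵥ (e5 : Fin 5 → ℤ) = e5)
    (p : ℕ) (hp : p ≠ 0) (h : g ^ p = 1) (h1 : g ≠ 1) (ω : Ω) (hω : D.ρ g ω = ω) : False := by
  obtain ⟨x, y, z, r, hr, rfl⟩ := stab_form g he
  obtain ⟨n, hn, s, hs, rfl⟩ := D.surj ω
  have hw : wd [Lt.T x y z, Lt.S r] = lt (Lt.T x y z) * lt (Lt.S r) := by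
    simp [wd]
  obtain ⟨h3, h4, h5⟩ := wO_eqv D [Lt.T x y z, Lt.S r] (by
    intro a ha
    simp only [List.mem_cons, List.not_mem_nil, or_false] at ha
    rcases ha with rfl | rfl
    · trivial
    · exact hr) n s hn hs
  rw [hw, hω] at h5
  obtain ⟨h6, h7⟩ := D.inj n hn s hs _ h3 _ h4 h5
  have h8 : s = omul s (oinv r) := by
    have h9 : (wO [Lt.T x y z, Lt.S r] (n, s)).2 = omul s (oinv r) := by
      simp only [wO, List.foldr_cons, List.foldr_nil, actO, frc_eq]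
    rw [← h9]
    exact h7
  have h9 := omul_fix s hs r hr h8.symm
  subst h9
  have h10 : lt (Lt.S 9) = 1 := by
    apply Subtype.ext
    apply Units.ext
    show (SU 9).1 = 1
    rw [SU_val (by norm_num)]
    decide +kernel
  rw [h10, mul_one] at h h1
  rw [lt_T_pow] at h
  have h11 : (TM ((p : ℤ) * x) ((p : ℤ) * y) ((p : ℤ) * z) : Matrix (Fin 5) (Fin 5) ℤ) = 1 :=
    congrArg (fun g : Gp => g.1.1) h
  have e1 := congrFun (congrFun h11 1) 4
  have e2 := congrFun (congrFun h11 2) 4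
  have e3 := congrFun (congrFun h11 3) 4
  simp [TM, hp] at e1 e2 e3
  apply h1
  subst e1 e2 e3
  apply Subtype.ext
  apply Units.ext
  exact MP55F.TM_zero

end H4A2
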