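import Pool.Agent.Lib_MP_55d5ef_a2.Fin

/-!
# The group is torsion-free
-/

open Matrix

namespace H4A2

open Lib_MP_55d5ef_geo MP55F

/-- The conjugate by a translation. -/
theorem conj_T (g : Gp) (a b k₁ k₂ k₃ a' l₁ l₂ l₃ c₁ c₂ c₃ : ℤ)
    (hv : cu g = vec (a, k₁, k₂, k₃, b)) (hv' : cu g⁻¹ = vec (a', l₁, l₂, l₃, b)) :
    (∃ a₂, cu ((lt (Lt.T c₁ c₂ c₃))⁻¹ * g * lt (Lt.T c₁ c₂ c₃)) =
      vec (a₂, k₁ - b * c₁, k₂ - b * c₂, k₃ - b * c₃, b)) ∧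
    ∃ a₂, cu ((lt (Lt.T c₁ c₂ c₃))⁻¹ * g * lt (Lt.T c₁ c₂ c₃))⁻¹ =
      vec (a₂, l₁ - b * c₁, l₂ - b * c₂, l₃ - b * c₃, b) := by
  have key : ∀ (h : Gp) (m m₁ m₂ m₃ : ℤ), cu h = vec (m, m₁, m₂, m₃, b) →
      ∃ a₂, cu ((lt (Lt.T c₁ c₂ c₃))⁻¹ * h * lt (Lt.T c₁ c₂ c₃)) =
        vec (a₂, m₁ - b * c₁, m₂ - b * c₂, m₃ - b * c₃, b) := by
    intro h m m₁ m₂ m₃ hh
    have h1 : (lt (Lt.T c₁ c₂ c₃)).1.1 *ᵥ (e5 : Fin 5 → ℤ) = e5 := by
      rw [← vec_e, lt_mulVec (Lt.T c₁ c₂ c₃) trivial]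
      simp [actV, frz_eq, bK, hK]
    have h2 : lt (Lt.T (-c₁) (-c₂) (-c₃)) * lt (Lt.T c₁ c₂ c₃) = 1 := by
      apply Subtype.ext
      apply Units.ext
      show TM (-c₁) (-c₂) (-c₃) * TM c₁ c₂ c₃ = (1 : Matrix (Fin 5) (Fin 5) ℤ)
      rw [MP55F.TM_mul]
      simp only [neg_add_cancel]
      exact MP55F.TM_zero
    have h3 : (lt (Lt.T c₁ c₂ c₃))⁻¹ = lt (Lt.T (-c₁) (-c₂) (-c₃)) :=
      (eq_inv_of_mul_eq_one_left h2).symm
    have h4 : cu (lt (Lt.T c₁ c₂ c₃)) = e5 := h1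
    have h6 : cu ((lt (Lt.T c₁ c₂ c₃))⁻¹ * h * lt (Lt.T c₁ c₂ c₃)) =
        vec (actV (Lt.T (-c₁) (-c₂) (-c₃)) (m, m₁, m₂, m₃, b)) := by
      rw [h3, cu_mul, h4]
      have h7 : (lt (Lt.T (-c₁) (-c₂) (-c₃)) * h).1.1 *ᵥ (e5 : Fin 5 → ℤ) =
          (lt (Lt.T (-c₁) (-c₂) (-c₃))).1.1 *ᵥ (h.1.1 *ᵥ (e5 : Fin 5 → ℤ)) := by
        rw [Matrix.mulVec_mulVec]
        rfl
      rw [h7]
      have h8 : h.1.1 *ᵥ (e5 : Fin 5 → ℤ) = vec (m, m₁, m₂, m₃, b) := hh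
      rw [h8, lt_mulVec (Lt.T (-c₁) (-c₂) (-c₃)) trivial]
    refine ⟨(actV (Lt.T (-c₁) (-c₂) (-c₃)) (m, m₁, m₂, m₃, b)).1, ?_⟩
    rw [h6]
    congr 1
    simp only [actV, frz_eq]
    refine Prod.ext rfl (Prod.ext ?_ (Prod.ext ?_ (Prod.ext ?_ rfl))) <;> simp only <;> ring
  refine ⟨key g a k₁ k₂ k₃ hv, ?_⟩
  have h5 : ((lt (Lt.T c₁ c₂ c₃))⁻¹ * g * lt (Lt.T c₁ c₂ c₃))⁻¹ =
      (lt (Lt.T c₁ c₂ c₃))⁻¹ * g⁻¹ * lt (Lt.T c₁ c₂ c₃) := by group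
  rw [h5]
  exact key g⁻¹ a' l₁ l₂ l₃ hv'

theorem conj_pow_one (g h : Gp) (p : ℕ) (hg : g ^ p = 1) : (h⁻¹ * g * h) ^ p = 1 := by
  have h1 : (h⁻¹ * g * h) ^ p = h⁻¹ * g ^ p * h := by
    have := conj_pow (i := p) (a := h⁻¹) (b := g)
    rw [inv_inv] at this
    exact this
  rw [h1, hg]
  group

theorem conj_fix {Ω : Type} (D : OData Ω) (g h : Gp) (ω : Ω) (hω : D.ρ g ω = ω) :
    D.ρ (h⁻¹ * g * h) (D.ρ h⁻¹ ω) = D.ρ h⁻¹ ω := by
  rw [← Equiv.Perm.mul_apply, ← map_mul]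
  have : h⁻¹ * g * h * h⁻¹ = h⁻¹ * g := by group
  rw [this, map_mul, Equiv.Perm.mul_apply, hω]

theorem L_ge6 {x y z : ℤ} (h : hK x y z ≤ 3) : (x, y, z) ∈ L6 := mem_L6 h

/-- Elements of prime order have no fixed point: the base cusp is nearest to a fixed vector. -/
theorem no_fix_data {Ω : Type} (D : OData Ω) (g : Gp) (p : ℕ) (hp : p = 2 ∨ p = 3 ∨ p = 5)
    (hg : g ^ p = 1) (ω : Ω) (hω : D.ρ g ω = ω) (a a' b k₁ k₂ k₃ l₁ l₂ l₃ : ℤ)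
    (hv : cu g = vec (a, k₁, k₂, k₃, b)) (hv' : cu g⁻¹ = vec (a', l₁, l₂, l₃, b))
    (hk : hK k₁ k₂ k₃ = a * b) (hb0 : 0 < b) (hb4 : b ≤ 4)
    (hd : hK (k₁ - l₁) (k₂ - l₂) (k₃ - l₃) ≤ 4 * b - b ^ 2)
    (h4 : b = 4 → ∀ c₁ c₂ c₃ : ℤ, 12 ≤ hK (4 * c₁ - k₁) (4 * c₂ - k₂) (4 * c₃ - k₃)) : False := by
  -- primitivity
  have hprim : ∀ m : ℤ, 1 < m → ∀ w : Fin 5 → ℤ, cu g ≠ m • w := by
    intro m hm w hw
    have h1 : (g⁻¹).1.1 *ᵥ cu g = e5 := by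
      apply inv_mulVec
      rfl
    rw [hw, Matrix.mulVec_smul] at h1
    have h2 := congrFun h1 0
    have h3 : m * ((g⁻¹).1.1 *ᵥ w) 0 = 1 := by simpa [e5] using h2
    have h5 : m ∣ 1 := ⟨_, h3.symm⟩
    have h6 := Int.le_of_dvd (by norm_num) h5
    omega
  -- the reduction to representatives
  have red : ∀ c₁ c₂ c₃ n₁ n₂ n₃ : ℤ, k₁ - b * c₁ = n₁ → k₂ - b * c₂ = n₂ → k₃ - b * c₃ = n₃ →
      ∃ (g' : Gp) (ω' : Ω) (a₂ m₀ m₁ m₂ m₃ : ℤ), g' ^ p = 1 ∧ D.ρ g' ω' = ω' ∧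
        cu g' = vec (a₂, n₁, n₂, n₃, b) ∧ cu g'⁻¹ = vec (m₀, m₁, m₂, m₃, b) ∧
        hK n₁ n₂ n₃ = a₂ * b ∧
        hK (n₁ - m₁) (n₂ - m₂) (n₃ - m₃) = hK (k₁ - l₁) (k₂ - l₂) (k₃ - l₃) := by
    intro c₁ c₂ c₃ n₁ n₂ n₃ e1 e2 e3
    obtain ⟨⟨a₂, h1⟩, ⟨a₃, h2⟩⟩ := conj_T g a b k₁ k₂ k₃ a' l₁ l₂ l₃ c₁ c₂ c₃ hv hv'
    refine ⟨(lt (Lt.T c₁ c₂ c₃))⁻¹ * g * lt (Lt.T c₁ c₂ c₃), D.ρ (lt (Lt.T c₁ c₂ c₃))⁻¹ ω, a₂, a₃,
      l₁ - b * c₁, l₂ - b * c₂, l₃ - b * c₃, conj_pow_one g _ p hg, conj_fix D g _ ω hω, ?_, h2,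
      ?_, ?_⟩
    · rw [h1, e1, e2, e3]
    · have h3 := cu_iso ((lt (Lt.T c₁ c₂ c₃))⁻¹ * g * lt (Lt.T c₁ c₂ c₃))
      rw [h1, e1, e2, e3, bf_bK] at h3
      simp only [vec, Matrix.cons_val] at h3
      rw [bK_self] at h3
      linarith
    · rw [← e1, ← e2, ← e3]
      congr 1 <;> ring
  have hb : b = 1 ∨ b = 2 ∨ b = 3 ∨ b = 4 := by omega
  rcases hb with rfl | rfl | rfl | rfl
  · obtain ⟨g', ω', a₂, m₀, m₁, m₂, m₃, h1, h2, h3, h5, h6, h7⟩ := red k₁ k₂ k₃ 0 0 0 (by ring)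
      (by ring) (by ring)
    have ha : a₂ = 0 := by
      have : hK 0 0 0 = 0 := by decide
      rw [this] at h6
      omega
    subst ha
    exact final D g' p hp h1 ω' h2 [Lt.J] (by
      intro l hl
      simp only [List.mem_singleton] at hl
      subst hl
      trivial) 0 0 0 0 0 0 0 0 1 m₀ m₁ m₂ m₃ one_pos h3 h5 (by decide +kernel) (by decide +kernel)
      L6 (fun x y z h => mem_L6 (by rw [h, h7]; linarith)) chk1
  · rcases class2 k₁ k₂ k₃ a (by rw [hk]) with ⟨m₁, m₂, m₃, m, e1, e2, e3, e4⟩ |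
      ⟨n, hn, c₁, c₂, c₃, e1, e2, e3⟩
    · exfalso
      apply hprim 2 (by norm_num) (vec (m, m₁, m₂, m₃, 1))
      rw [hv, e1, e2, e3, e4]
      ext i
      fin_cases i <;> simp [vec]
    · obtain ⟨g', ω', a₂, m₀, m₁, m₂, m₃, h1, h2, h3, h5, h6, h7⟩ := red c₁ c₂ c₃ n.1 n.2.1 n.2.2
        e1 e2 e3
      have hn2 := reps2_norm n hn
      have ha : a₂ = 1 := by omega
      subst ha
      have hok : ∀ l ∈ [Lt.J, Lt.T n.1 n.2.1 n.2.2, Lt.J], okL l := by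
        intro l hl
        simp only [List.mem_cons, List.not_mem_nil, or_false] at hl
        rcases hl with rfl | rfl | rfl <;> trivial
      have hq : H4A2.hK n.1 n.2.1 n.2.2 = 2 := hn2
      refine final D g' p hp h1 ω' h2 [Lt.J, Lt.T n.1 n.2.1 n.2.2, Lt.J] hok n.1 n.2.1 n.2.2
        (-n.1) (-n.2.1) (-n.2.2) 1 1 2 m₀ m₁ m₂ m₃ (by norm_num) h3 h5 ?_ ?_ L8
        (fun x y z h => mem_L8 (by rw [h, h7]; linarith)) (List.all_eq_true.1 chk2 n hn)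
      · simp [wV, actV, frz_eq, hq, bK]
      · simp only [wV, List.foldr_cons, List.foldr_nil, actV, frz_eq]
        refine Prod.ext ?_ (Prod.ext ?_ (Prod.ext ?_ (Prod.ext ?_ ?_)))
        · simp
        · simp
        · simp
        · simp
        · simp only
          have : bK (-n.1) (-n.2.1) (-n.2.2) n.1 n.2.1 n.2.2 = - (2 * hK n.1 n.2.1 n.2.2) := by
            unfold bK hK
            ring
          rw [this, hq]
          norm_num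
  · rcases class3 k₁ k₂ k₃ a (by rw [hk]) with ⟨m₁, m₂, m₃, m, e1, e2, e3, e4⟩ |
      ⟨n, hn, c₁, c₂, c₃, e1, e2, e3⟩
    · exfalso
      apply hprim 3 (by norm_num) (vec (m, m₁, m₂, m₃, 1))
      rw [hv, e1, e2, e3, e4]
      ext i
      fin_cases i <;> simp [vec]
    · obtain ⟨g', ω', a₂, m₀, m₁, m₂, m₃, h1, h2, h3, h5, h6, h7⟩ := red c₁ c₂ c₃ n.1 n.2.1 n.2.2
        e1 e2 e3
      have hn2 := reps3_norm n hn
      have ha : a₂ = 1 := by omega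
      subst ha
      have hok : ∀ l ∈ [Lt.J, Lt.T n.1 n.2.1 n.2.2, Lt.J], okL l := by
        intro l hl
        simp only [List.mem_cons, List.not_mem_nil, or_false] at hl
        rcases hl with rfl | rfl | rfl <;> trivial
      refine final D g' p hp h1 ω' h2 [Lt.J, Lt.T n.1 n.2.1 n.2.2, Lt.J] hok n.1 n.2.1 n.2.2
        (-n.1) (-n.2.1) (-n.2.2) 1 1 3 m₀ m₁ m₂ m₃ (by norm_num) h3 h5 ?_ ?_ L6
        (fun x y z h => mem_L6 (by rw [h, h7]; linarith)) (List.all_eq_true.1 chk3 n hn)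
      · simp [wV, actV, frz_eq, hn2, bK]
      · simp only [wV, List.foldr_cons, List.foldr_nil, actV, frz_eq]
        refine Prod.ext ?_ (Prod.ext ?_ (Prod.ext ?_ (Prod.ext ?_ ?_)))
        · simp
        · simp
        · simp
        · simp
        · simp only
          have : bK (-n.1) (-n.2.1) (-n.2.2) n.1 n.2.1 n.2.2 = - (2 * hK n.1 n.2.1 n.2.2) := by
            unfold bK hK
            ring
          rw [this, hn2]
          norm_num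
  · obtain ⟨c₁, c₂, c₃, e1, e2, e3⟩ := class4 k₁ k₂ k₃ (h4 rfl)
    obtain ⟨g', ω', a₂, m₀, m₁, m₂, m₃, h1, h2, h3, h5, h6, h7⟩ := red c₁ c₂ c₃ 0 2 2 e1 e2 e3
    have ha : a₂ = 3 := by
      have : hK 0 2 2 = 12 := by decide
      rw [this] at h6
      omega
    subst ha
    refine final D g' p hp h1 ω' h2 [Lt.J, Lt.T 0 1 1, Lt.J, Lt.T 0 (-1) (-1), Lt.J] (by
      intro l hl
      simp only [List.mem_cons, List.not_mem_nil, or_false] at hl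
      rcases hl with rfl | rfl | rfl | rfl | rfl <;> trivial) 0 2 2 0 2 2 3 3 4 m₀ m₁ m₂ m₃
      (by norm_num) h3 h5 (by decide +kernel) (by decide +kernel)
      [(0, 0, 0)] (fun x y z h => ?_) chk4
    have h8 : hK x y z ≤ 0 := by rw [h, h7]; linarith
    have h9 := hK_eq x y z
    have hy : y ^ 2 ≤ 0 := by nlinarith [sq_nonneg (x - y), sq_nonneg z, sq_nonneg (z - x)]
    have hz : z ^ 2 ≤ 0 := by nlinarith [sq_nonneg (x - y), sq_nonneg y, sq_nonneg (z - x)]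
    have hx : (x - y) ^ 2 ≤ 0 := by nlinarith [sq_nonneg y, sq_nonneg z, sq_nonneg (z - x)]
    have hy' : y = 0 := by nlinarith
    have hz' : z = 0 := by nlinarith
    have hx' : x - y = 0 := by nlinarith
    have hx'' : x = 0 := by omega
    subst hx'' hy' hz'
    simp

/-- An element of finite order with a fixed point on the 480 points is trivial. -/
theorem torsion_free {Ω : Type} (D : OData Ω) (g : Gp) (ω : Ω) (hω : D.ρ g ω = ω) (n : ℕ)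
    (hn : 0 < n) (hg : g ^ n = 1) : g = 1 := by
  by_contra hne
  -- reduction to prime order
  have hord : orderOf g ≠ 1 := fun h => hne (orderOf_eq_one_iff.1 h)
  have hpos : 0 < orderOf g := orderOf_pos_iff.2 (isOfFinOrder_iff_pow_eq_one.2 ⟨n, hn, hg⟩)
  obtain ⟨p, hp, hdvd⟩ := Nat.exists_prime_and_dvd hord
  obtain ⟨m, hm⟩ := hdvd
  have hm0 : 0 < m := by
    rcases Nat.eq_zero_or_pos m with h | h
    · rw [h, mul_zero] at hm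
      omega
    · exact h
  set g' := g ^ m with hg'
  have h1 : g' ^ p = 1 := by
    rw [hg', ← pow_mul, mul_comm, ← hm]
    exact pow_orderOf_eq_one g
  have h2 : g' ≠ 1 := by
    intro h
    have h3 := orderOf_dvd_of_pow_eq_one h
    rw [hm] at h3
    have h4 := Nat.le_of_dvd hm0 h3
    have h5 := hp.two_le
    nlinarith
  have h3 : D.ρ g' ω = ω := by
    have key : ∀ i : ℕ, D.ρ (g ^ i) ω = ω := by
      intro i
      induction i with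
      | zero => simp
      | succ i ih => rw [pow_succ, map_mul, Equiv.Perm.mul_apply, hω, ih]
    exact key m
  have hp5 : p = 2 ∨ p = 3 ∨ p = 5 := by
    refine prime_order g'.1.1 p hp ?_ ?_
    · have := congrArg (fun h : Gp => h.1.1) h1
      simpa using this
    · intro h
      apply h2
      apply Subtype.ext
      apply Units.ext
      exact h
  by_cases he : g'.1.1 *ᵥ (e5 : Fin 5 → ℤ) = e5
  · exact no_fix_stab D g' he p hp.ne_zero h1 h2 ω h3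
  · obtain ⟨h, x, hx1, hx2, hx3⟩ := nearest g' p hp.pos h1 he
    by_cases he' : (h⁻¹ * g' * h).1.1 *ᵥ (e5 : Fin 5 → ℤ) = e5
    · refine no_fix_stab D (h⁻¹ * g' * h) he' p hp.ne_zero (conj_pow_one g' h p h1) ?_ _
        (conj_fix D g' h ω h3)
      intro h4
      apply h2
      have h5 : g' = h * (h⁻¹ * g' * h) * h⁻¹ := by group
      rw [h5, h4]
      group
    · obtain ⟨a, a', b, k₁, k₂, k₃, l₁, l₂, l₃, d1, d2, d3, d4, d5, d6, d7, d8⟩ :=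
        data (h⁻¹ * g' * h) x hx1 hx2 hx3 he'
      exact no_fix_data D (h⁻¹ * g' * h) p hp5 (conj_pow_one g' h p h1) _ (conj_fix D g' h ω h3)
        a a' b k₁ k₂ k₃ l₁ l₂ l₃ d1 d2 d3 d5 d6 d7 d8

end H4A2
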