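import Pool.Agent.Lib_MP_55d5ef_a2.Bnd

/-!
# A computable model of the letters and of their action on the 480 points
-/

namespace H4A2

/-- The letters: the involution `J`, the translations `T`, the elements `S r` of `O(K)`. -/
inductive Lt
  | J
  | T (x y z : ℤ)
  | S (r : ℕ)

/-- The twelve elements of `O(K)`. -/
def okA (r : ℕ) (x y z : ℤ) : ℤ × ℤ × ℤ :=
  match r with
  | 0 => (-x, -x + y, -z)
  | 1 => (-x + y + z, -x + z, z)
  | 2 => (-x, -y, -z)
  | 3 => (-x + y + z, y, z)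
  | 4 => (-y + z, -x + z, z)
  | 5 => (y - z, -x + y, -z)
  | 6 => (-y + z, x - y, z)
  | 7 => (y - z, x - z, -z)
  | 8 => (x - y - z, -y, -z)
  | 9 => (x, y, z)
  | 10 => (x - y - z, x - z, -z)
  | 11 => (x, x - y, z)
  | _ => (x, y, z)

/-- The multiplication table of `O(K)`. -/
def omulL : List ℕ :=
  [9, 8, 11, 10, 5, 4, 7, 6, 1, 0, 3, 2, 7, 6, 10, 11, 3, 2, 9, 8, 0, 1, 5, 4, 11, 10, 9, 8, 7, 6, 5, 4, 3, 2, 1, 0, 5, 4, 8, 9, 1, 0, 11, 10, 2, 3, 7, 6, 10, 11, 7, 6, 9, 8, 3, 2, 5, 4, 0, 1, 3, 2, 6, 7, 0, 1, 10, 11, 4, 5, 9, 8, 8, 9, 5, 4, 11, 10, 1, 0, 7, 6, 2, 3, 1, 0, 4, 5, 2, 3, 8, 9, 6, 7, 11, 10, 6, 7, 3, 2, 10, 11, 0, 1, 9, 8, 4, 5, 0, 1, 2, 3, 4, 5, 6, 7, 8, 9, 10, 11, 4, 5, 1, 0, 8, 9, 2, 3, 11, 10, 6, 7, 2, 3, 0, 1, 6, 7, 4, 5, 10, 11, 8, 9]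

/-- The product in `O(K)`. -/
def omul (r s : ℕ) : ℕ := omulL.getD (12 * r + s) 0

/-- The inverse in `O(K)`. -/
def oinv (r : ℕ) : ℕ := [0, 6, 2, 3, 4, 10, 1, 7, 8, 9, 5, 11].getD r 0

/-- The side pairing: the permutation of the 40 classes. -/
def jT (n : ℕ) : ℕ :=
  [11, 13, 29, 16, 36, 25, 34, 14, 21, 17, 19, 0, 38, 1, 7, 35, 3, 9, 32, 10, 37, 8, 27, 28, 31, 5, 39, 22, 23, 2, 33, 24, 18, 30, 6, 15, 4, 20, 12, 26].getD n 0

/-- The side pairing: the reflections. -/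
def rT (n : ℕ) : ℕ :=
  [3, 11, 11, 4, 3, 3, 3, 4, 11, 11, 3, 3, 11, 11, 4, 4, 4, 11, 11, 3, 3, 11, 4, 4, 3, 3, 3, 4, 4, 11, 3, 3, 11, 3, 3, 4, 3, 3, 11, 3].getD n 0

/-- The vectors `a e + (x, y, z) + b f`, as `(a, x, y, z, b)`. -/
abbrev V5 := ℤ × ℤ × ℤ × ℤ × ℤ

/-- Evaluation of the argument (for the kernel). -/
def frc {α : Type} (n : ℕ) (f : ℕ → α) : α :=
  match n with
  | 0 => f 0
  | k + 1 => f (k + 1)

theorem frc_eq {α : Type} (n : ℕ) (f : ℕ → α) : frc n f = f n := by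
  cases n <;> rfl

/-- Evaluation of the argument (for the kernel). -/
def frz {α : Type} (n : ℤ) (f : ℤ → α) : α :=
  match n with
  | Int.ofNat k => frc k fun k => f (Int.ofNat k)
  | Int.negSucc k => frc k fun k => f (Int.negSucc k)

theorem frz_eq {α : Type} (n : ℤ) (f : ℤ → α) : frz n f = f n := by
  cases n <;> simp [frz, frc_eq]

/-- The action of the letters on the vectors. -/
def actV : Lt → V5 → V5
  | Lt.J, (a, x, y, z, b) => (b, x, y, z, a)
  | Lt.T u v w, (a, x, y, z, b) =>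
      frz a fun a => frz x fun x => frz y fun y => frz z fun z => frz b fun b =>
      (a + bK x y z u v w + b * hK u v w, x + b * u, y + b * v, z + b * w, b)
  | Lt.S r, (a, x, y, z, b) =>
      frz x fun x => frz y fun y => frz z fun z => 
      match okA r x y z with
      | (x', y', z') => (a, x', y', z', b)

/-- The action of the letters on the 480 points `(n, r)`, `n < 40`, `r < 12`. -/
def actO : Lt → ℕ × ℕ → ℕ × ℕ
  | Lt.J, (n, r) => frc n fun n => frc r fun r => (jT n, omul (rT n) r)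
  | Lt.T u v w, (n, r) => frc n fun n => frc r fun r =>
      match okA r u v w with
      | (x, y, z) => (20 * ((((n / 20 : ℕ) : ℤ) - x) % 2).toNat +
        ((((n % 20 : ℕ) : ℤ) - (z - 6 * x - 11 * y)) % 20).toNat, r)
  | Lt.S s, (n, r) => (n, omul r (oinv s))

/-- The action of words on the vectors. -/
def wV (l : List Lt) (v : V5) : V5 := l.foldr actV v

/-- The action of words on the 480 points. -/
def wO (l : List Lt) (o : ℕ × ℕ) : ℕ × ℕ := l.foldr actO o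

/-- `p` times the word `l` fixes the vector `v`. -/
def fixV (l : List Lt) (p : ℕ) (v : V5) : Bool := decide ((wV l)^[p] v = v)

/-- The `p`-th power of the word is the identity. -/
def isId (l : List Lt) (p : ℕ) : Bool :=
  fixV l p (0, 0, 0, 0, 1) && (fixV l p (1, 0, 0, 0, 0) && (fixV l p (0, 1, 0, 0, 0) &&
    (fixV l p (0, 0, 1, 0, 0) && fixV l p (0, 0, 0, 1, 0))))

/-- The word has no fixed point on the 480 points. -/
def noFix (l : List Lt) : Bool :=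
  (List.range 40).all fun n => (List.range 12).all fun r => !(decide (wO l (n, r) = (n, r)))

/-- The check of a word. -/
def chk (l : List Lt) : Bool :=
  ((!(isId l 2)) && (!(isId l 3)) && (!(isId l 5))) || noFix l

/-- The vectors of norm at most 6. -/
def L6 : List (ℤ × ℤ × ℤ) :=
  [(-2, -1, -1), (-2, -1, 0), (-1, -2, 0), (-1, -1, -1), (-1, -1, 0), (-1, 0, -1), (-1, 0, 0), (-1, 1, 0), (0, -1, -1), (0, -1, 0), (0, -1, 1), (0, 0, -1), (0, 0, 0), (0, 0, 1), (0, 1, -1), (0, 1, 0), (0, 1, 1), (1, -1, 0), (1, 0, 0), (1, 0, 1), (1, 1, 0), (1, 1, 1), (1, 2, 0), (2, 1, 0), (2, 1, 1)]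

/-- The vectors of norm at most 8. -/
def L8 : List (ℤ × ℤ × ℤ) :=
  [(-2, -2, -1), (-2, -2, 0), (-2, -1, -1), (-2, -1, 0), (-2, 0, -1), (-2, 0, 0), (-1, -2, -1), (-1, -2, 0), (-1, -1, -1), (-1, -1, 0), (-1, -1, 1), (-1, 0, -1), (-1, 0, 0), (-1, 0, 1), (-1, 1, -1), (-1, 1, 0), (0, -2, 0), (0, -1, -1), (0, -1, 0), (0, -1, 1), (0, 0, -1), (0, 0, 0), (0, 0, 1), (0, 1, -1), (0, 1, 0), (0, 1, 1), (0, 2, 0), (1, -1, 0), (1, -1, 1), (1, 0, -1), (1, 0, 0), (1, 0, 1), (1, 1, -1), (1, 1, 0), (1, 1, 1), (1, 2, 0), (1, 2, 1), (2, 0, 0), (2, 0, 1), (2, 1, 0), (2, 1, 1), (2, 2, 0), (2, 2, 1)]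

/-- The check of the elements `A T_u S_s`, where `A` maps `e` to the vector with `K`-part `k` and
height `b`, the `K`-part of `A⁻¹ e` is `kh`, and `b u = w + kh - S_s k`, for the vectors `w` of the
list `L`. -/
def chkAll (A : List Lt) (b : ℤ) (k kh : ℤ × ℤ × ℤ) (L : List (ℤ × ℤ × ℤ)) : Bool :=
  (List.range 12).all fun s => L.all fun w =>
    let x := w.1 + kh.1 - (okA s k.1 k.2.1 k.2.2).1
    let y := w.2.1 + kh.2.1 - (okA s k.1 k.2.1 k.2.2).2.1
    let z := w.2.2 + kh.2.2 - (okA s k.1 k.2.1 k.2.2).2.2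
    (!(decide (x % b = 0 ∧ y % b = 0 ∧ z % b = 0))) ||
      chk (A ++ [Lt.T (x / b) (y / b) (z / b), Lt.S s])

/-- The part of `chkAll` for one element of `O(K)`. -/
def chkS (A : List Lt) (b : ℤ) (k kh : ℤ × ℤ × ℤ) (L : List (ℤ × ℤ × ℤ)) (s : ℕ) : Bool :=
  L.all fun w =>
    let x := w.1 + kh.1 - (okA s k.1 k.2.1 k.2.2).1
    let y := w.2.1 + kh.2.1 - (okA s k.1 k.2.1 k.2.2).2.1
    let z := w.2.2 + kh.2.2 - (okA s k.1 k.2.1 k.2.2).2.2
    (!(decide (x % b = 0 ∧ y % b = 0 ∧ z % b = 0))) ||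
      chk (A ++ [Lt.T (x / b) (y / b) (z / b), Lt.S s])

/-- `chkAll` from its three parts (separate kernel checks need less memory). -/
theorem chkAll_of {A : List Lt} {b : ℤ} {k kh : ℤ × ℤ × ℤ} {L : List (ℤ × ℤ × ℤ)}
    (h0 : [0, 1, 2, 3].all (chkS A b k kh L) = true)
    (h1 : [4, 5, 6, 7].all (chkS A b k kh L) = true)
    (h2 : [8, 9, 10, 11].all (chkS A b k kh L) = true) : chkAll A b k kh L = true := by
  rw [List.all_eq_true] at h0 h1 h2
  unfold chkAll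
  rw [List.all_eq_true]
  intro s hs
  rw [List.mem_range] at hs
  by_cases a0 : s < 4
  · exact h0 s (by simp only [List.mem_cons, List.not_mem_nil, or_false]; omega)
  by_cases a1 : s < 8
  · exact h1 s (by simp only [List.mem_cons, List.not_mem_nil, or_false]; omega)
  · exact h2 s (by simp only [List.mem_cons, List.not_mem_nil, or_false]; omega)

theorem chk1a : [0, 1, 2, 3].all (chkS [Lt.J] 1 (0, 0, 0) (0, 0, 0) L6) = true := by
  decide +kernel

theorem chk1b : [4, 5, 6, 7].all (chkS [Lt.J] 1 (0, 0, 0) (0, 0, 0) L6) = true := by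
  decide +kernel

theorem chk1c : [8, 9, 10, 11].all (chkS [Lt.J] 1 (0, 0, 0) (0, 0, 0) L6) = true := by
  decide +kernel

theorem chk1 : chkAll [Lt.J] 1 (0, 0, 0) (0, 0, 0) L6 = true := chkAll_of chk1a chk1b chk1c

/-- The check for the height 2. -/
def c2f (n : ℤ × ℤ × ℤ) : Bool :=
  chkAll [Lt.J, Lt.T n.1 n.2.1 n.2.2, Lt.J] 2 n (-n.1, -n.2.1, -n.2.2) L8

theorem chk2a : c2f (0, 0, 1) = true := by
  decide +kernel

theorem chk2b : c2f (1, 0, 1) = true := by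
  decide +kernel

theorem chk2c : c2f (1, 1, 1) = true := by
  decide +kernel

theorem chk2 : ([(0, 0, 1), (1, 0, 1), (1, 1, 1)] : List (ℤ × ℤ × ℤ)).all (fun n =>
    chkAll [Lt.J, Lt.T n.1 n.2.1 n.2.2, Lt.J] 2 n (-n.1, -n.2.1, -n.2.2) L8) = true := by
  rw [List.all_eq_true]
  intro n hn
  simp only [List.mem_cons, List.not_mem_nil, or_false] at hn
  rcases hn with rfl | rfl | rfl
  · exact chk2a
  · exact chk2b
  · exact chk2c

/-- The representatives for the height 3. -/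
def reps3 : List (ℤ × ℤ × ℤ) :=
  [(-2, -1, -1), (-2, -1, 0), (-1, -2, 0), (0, -1, -1), (0, -1, 1), (0, 1, -1), (0, 1, 1), (2, 1, 1)]

/-- The check for the height 3. -/
def c3f (n : ℤ × ℤ × ℤ) : Bool :=
  chkAll [Lt.J, Lt.T n.1 n.2.1 n.2.2, Lt.J] 3 n (-n.1, -n.2.1, -n.2.2) L6

theorem chk3a : c3f (-2, -1, -1) = true := by
  decide +kernel

theorem chk3b : c3f (-2, -1, 0) = true := by
  decide +kernel

theorem chk3c : c3f (-1, -2, 0) = true := by
  decide +kernel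

theorem chk3d : c3f (0, -1, -1) = true := by
  decide +kernel

theorem chk3e : c3f (0, -1, 1) = true := by
  decide +kernel

theorem chk3f : c3f (0, 1, -1) = true := by
  decide +kernel

theorem chk3g : c3f (0, 1, 1) = true := by
  decide +kernel

theorem chk3h : c3f (2, 1, 1) = true := by
  decide +kernel

theorem chk3 : reps3.all (fun n =>
    chkAll [Lt.J, Lt.T n.1 n.2.1 n.2.2, Lt.J] 3 n (-n.1, -n.2.1, -n.2.2) L6) = true := by
  rw [List.all_eq_true]
  intro n hn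
  simp only [reps3, List.mem_cons, List.not_mem_nil, or_false] at hn
  rcases hn with rfl | rfl | rfl | rfl | rfl | rfl | rfl | rfl
  · exact chk3a
  · exact chk3b
  · exact chk3c
  · exact chk3d
  · exact chk3e
  · exact chk3f
  · exact chk3g
  · exact chk3h

theorem chk4 : chkAll [Lt.J, Lt.T 0 1 1, Lt.J, Lt.T 0 (-1) (-1), Lt.J] 4 (0, 2, 2) (0, 2, 2)
    [(0, 0, 0)] = true := by
  decide +kernel

end H4A2
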